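import Pool.Agent.Helper45.SP.GoalsG

/-!
# COMM: commutators of elements near the identity (packet for Helper45/SP)
-/

open Complex Metric Set Filter Topology
open scoped ContDiff ComplexConjugate

namespace Pool.Agent.Helper74.SP

open Pool.Agent.Helper95.Lin Pool.Agent.Helper10.SP Pool.Agent.Helper45.SP

/-- Cauchy estimate on concentric balls. -/
theorem cauchyB {b : ℕ} {F : Type*} [NormedAddCommGroup F] [NormedSpace ℂ F] {z₀ : Cn b}
    {ρ ρ' M : ℝ} (h : ρ < ρ') {f : Cn b → F} (hf : DifferentiableOn ℂ f (ball z₀ ρ'))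
    (hM : ∀ z ∈ ball z₀ ρ', ‖f z‖ ≤ M) : ∀ z ∈ ball z₀ ρ, ‖fderiv ℂ f z‖ ≤ M / (ρ' - ρ) := by
  intro z hz
  have hzρ : ‖z - z₀‖ < ρ := by rwa [mem_ball, dist_eq_norm] at hz
  have hz' : z ∈ ball z₀ ρ' := ball_subset_ball h.le hz
  have hR : 0 < ρ' - ρ := by linarith
  have hM0 : 0 ≤ M := (norm_nonneg _).trans (hM z hz')
  refine ContinuousLinearMap.opNorm_le_bound _ (by positivity) ?_
  intro e
  by_cases he : e = 0
  · simp [he]
  have he0 : 0 < ‖e‖ := norm_pos_iff.2 he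
  have hmem : ∀ ζ ∈ closedBall (0 : ℂ) ((ρ' - ρ) / ‖e‖), z + ζ • e ∈ ball z₀ ρ' := by
    intro ζ hζ
    rw [mem_closedBall, dist_zero_right] at hζ
    rw [mem_ball, dist_eq_norm]
    have h1 : ‖ζ • e‖ ≤ ρ' - ρ := by
      rw [norm_smul]
      calc ‖ζ‖ * ‖e‖ ≤ (ρ' - ρ) / ‖e‖ * ‖e‖ := by gcongr
        _ = ρ' - ρ := by field_simp
    calc ‖z + ζ • e - z₀‖ = ‖(z - z₀) + ζ • e‖ := by congr 1; abel
      _ ≤ ‖z - z₀‖ + ‖ζ • e‖ := norm_add_le _ _
      _ < ρ' := by linarith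
  have hfz : DifferentiableAt ℂ f z := hf.differentiableAt (isOpen_ball.mem_nhds hz')
  have hline : ∀ ζ : ℂ, HasDerivAt (fun ζ : ℂ => z + ζ • e) e ζ := by
    intro ζ
    have h0 : HasDerivAt (fun ζ : ℂ => ζ • e) ((1 : ℂ) • e) ζ := (hasDerivAt_id ζ).smul_const e
    rw [one_smul] at h0
    simpa using h0.const_add z
  have hd : HasDerivAt (fun ζ : ℂ => f (z + ζ • e)) (fderiv ℂ f z e) 0 := by
    have h1 : HasFDerivAt f (fderiv ℂ f z) (z + (0 : ℂ) • e) := by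
      simpa using hfz.hasFDerivAt
    exact h1.comp_hasDerivAt (0 : ℂ) (hline 0)
  have hdc : DiffContOnCl ℂ (fun ζ : ℂ => f (z + ζ • e)) (ball (0 : ℂ) ((ρ' - ρ) / ‖e‖)) := by
    have h2 : DifferentiableOn ℂ (fun ζ : ℂ => f (z + ζ • e))
        (closedBall (0 : ℂ) ((ρ' - ρ) / ‖e‖)) := by
      intro ζ hζ
      have h3 : DifferentiableAt ℂ f (z + ζ • e) :=
        hf.differentiableAt (isOpen_ball.mem_nhds (hmem ζ hζ))
      exact (h3.comp ζ (hline ζ).differentiableAt).differentiableWithinAt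
    exact h2.diffContOnCl_ball subset_rfl
  have hR' : 0 < (ρ' - ρ) / ‖e‖ := by positivity
  have h4 := Complex.norm_deriv_le_of_forall_mem_sphere_norm_le hR' hdc
    (C := M) (fun ζ hζ => hM _ (hmem ζ (sphere_subset_closedBall hζ)))
  rw [hd.deriv] at h4
  calc ‖(fderiv ℂ f z) e‖ ≤ M / ((ρ' - ρ) / ‖e‖) := h4
    _ = M / (ρ' - ρ) * ‖e‖ := by field_simp

theorem lipB {b : ℕ} {F : Type*} [NormedAddCommGroup F] [NormedSpace ℂ F] {z₀ : Cn b}
    {ρ ρ' L : ℝ} (h : ρ ≤ ρ') {f : Cn b → F} (hf : DifferentiableOn ℂ f (ball z₀ ρ'))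
    (hL : ∀ z ∈ ball z₀ ρ, ‖fderiv ℂ f z‖ ≤ L) :
    ∀ x ∈ ball z₀ ρ, ∀ y ∈ ball z₀ ρ, ‖f x - f y‖ ≤ L * ‖x - y‖ := by
  intro x hx y hy
  exact (convex_ball z₀ ρ).norm_image_sub_le_of_norm_fderiv_le
    (fun z hz => hf.differentiableAt (isOpen_ball.mem_nhds (ball_subset_ball h hz))) hL hy hx

theorem COMM (hLMUL : S_LMUL) (hLCMP : S_LCMP') (hSURJ : S_SURJ)
    (hPICK : S_PICK) : S_COMM := by
  intro b z₀ r A hP
  have hL : LGrp z₀ r A := hP.toLGrp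
  have hr : 0 < r := hL.pos
  obtain ⟨C1, η1, hC1, hη1, h1⟩ := hLCMP hL z₀ (r / 2) (by linarith)
    (ball_subset_ball (by linarith)) (3 * r / 4) (by linarith)
  obtain ⟨η2, hη2, h2⟩ := hLMUL hL (3 * r / 4) (by linarith) 1 one_pos
  obtain ⟨η2', hη2', h2'⟩ := hLMUL hL (3 * r / 4) (by linarith) η2 hη2
  obtain ⟨η3, hη3, h3⟩ := hSURJ z₀ (r / 2) (3 * r / 5) (by linarith) (r / 12) (by positivity)
  obtain ⟨η4, hη4, C4, h4⟩ := hP.lip
  obtain ⟨η5, hη5, C5, h5⟩ := hP.grow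
  set K4 : ℝ := |C4| with hK4
  set K5 : ℝ := |C5| with hK5
  have hK40 : 0 ≤ K4 := abs_nonneg _
  have hK50 : 0 ≤ K5 := abs_nonneg _
  set K2 : ℝ := 576 * K4 * C1 / r with hK2
  have hK20 : 0 ≤ K2 := by positivity
  -- the small number
  obtain ⟨η, hη, hηle⟩ : ∃ η : ℝ, 0 < η ∧ (η ≤ 1 ∧ η ≤ η1 ∧ η ≤ η2 ∧ η ≤ η2' ∧ η ≤ η4 ∧
      η ≤ η5 ∧ 2 * C1 * η ≤ η2 ∧ 2 * C1 * η ≤ η2' ∧ 2 * C1 * η ≤ η3 ∧ C1 * η ≤ r / 24 ∧
      K4 * η ≤ 1 / 2) := by
    have hC1' : 0 < 2 * C1 + 1 := by linarith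
    have hK4' : 0 < 2 * K4 + 1 := by linarith
    set m : ℝ := min (min (min 1 η1) (min η2 η2')) (min (min η4 η5) (min η3 (r / 24))) with hm
    have hm0 : 0 < m := by
      simp only [hm, lt_min_iff]
      refine ⟨⟨⟨one_pos, hη1⟩, hη2, hη2'⟩, ⟨hη4, hη5⟩, hη3, by positivity⟩
    have m1 : m ≤ 1 := by simp [hm]
    have m2 : m ≤ η1 := by simp [hm]
    have m3 : m ≤ η2 := by simp [hm]
    have m4 : m ≤ η2' := by simp [hm]
    have m5 : m ≤ η4 := by simp [hm]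
    have m6 : m ≤ η5 := by simp [hm]
    have m7 : m ≤ η3 := by simp [hm]
    have m8 : m ≤ r / 24 := by simp [hm]
    refine ⟨m / ((2 * C1 + 1) * (2 * K4 + 1)), by positivity, ?_⟩
    have key : m / ((2 * C1 + 1) * (2 * K4 + 1)) ≤ m := by
      apply div_le_self hm0.le
      nlinarith [mul_nonneg hC1 hK40]
    have key2 : 2 * C1 * (m / ((2 * C1 + 1) * (2 * K4 + 1))) ≤ m := by
      rw [mul_div_assoc', div_le_iff₀ (by positivity)]
      nlinarith [mul_nonneg hC1 hK40, mul_nonneg (mul_nonneg hC1 hK40) hm0.le,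
        mul_nonneg hK40 hm0.le, mul_nonneg hC1 hm0.le]
    have key3 : K4 * (m / ((2 * C1 + 1) * (2 * K4 + 1))) ≤ 1 / 2 := by
      rw [mul_div_assoc', div_le_iff₀ (by positivity)]
      nlinarith [mul_nonneg hC1 hK40, mul_nonneg hK40 hm0.le, mul_le_mul_of_nonneg_left m1 hK40]
    have key4 : C1 * (m / ((2 * C1 + 1) * (2 * K4 + 1))) ≤ m := by
      have : 0 ≤ C1 * (m / ((2 * C1 + 1) * (2 * K4 + 1))) := by positivity
      linarith
    exact ⟨key.trans m1, key.trans m2, key.trans m3, key.trans m4, key.trans m5, key.trans m6,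
      key2.trans m3, key2.trans m4, key2.trans m7, key4.trans m8, key3⟩
  obtain ⟨e1, e2, e3, e4, e5, e6, e7, e8, e9, e10, e11⟩ := hηle
  refine ⟨η, hη, 24 * C1 ^ 2 / r + K2 + K5 * (1 + 12 * K4 + 4 * C1 / r + 2 * K2), by positivity, ?_⟩
  intro t ht s hs δ δ' hδ hδ' hnt hns
  have hz₀ : z₀ ∈ ball z₀ (r / 2) := mem_ball_self (by positivity)
  have hδ0 : 0 ≤ δ := (norm_nonneg _).trans (hnt z₀ hz₀)
  have hδ'0 : 0 ≤ δ' := (norm_nonneg _).trans (hns z₀ hz₀)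
  have nearmono : ∀ {f : Cn b → Cn b} {ρ a c : ℝ}, Near z₀ ρ f a → a ≤ c → Near z₀ ρ f c :=
    fun hf hac z hz => (hf z hz).trans hac
  -- displacement on the big ball
  have hT : Near z₀ (3 * r / 4) t.g (C1 * δ) := h1 t ht δ (hδ.trans e2) hnt
  have hS : Near z₀ (3 * r / 4) s.g (C1 * δ') := h1 s hs δ' (hδ'.trans e2) hns
  have hTs : C1 * δ ≤ r / 24 := (mul_le_mul_of_nonneg_left hδ hC1).trans e10
  have hSs : C1 * δ' ≤ r / 24 := (mul_le_mul_of_nonneg_left hδ' hC1).trans e10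
  -- moving points
  have mv : ∀ {f : Cn b → Cn b} {a ρ : ℝ}, Near z₀ (3 * r / 4) f a → a ≤ r / 24 →
      ρ ≤ 3 * r / 4 → ∀ z ∈ ball z₀ ρ, f z ∈ ball z₀ (ρ + r / 24) := by
    intro f a ρ hf ha hρ z hz
    have hz' := hf z (ball_subset_ball hρ hz)
    rw [mem_ball, dist_eq_norm] at hz ⊢
    calc ‖f z - z₀‖ = ‖(f z - z) + (z - z₀)‖ := by congr 1; abel
      _ ≤ ‖f z - z‖ + ‖z - z₀‖ := norm_add_le _ _
      _ < ρ + r / 24 := by linarith
  -- products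
  obtain ⟨u1, hu1A, hu1⟩ := ((h2 s hs (nearmono hns (hδ'.trans e3))).1 t ht
    (nearmono hnt (hδ.trans e3))).2
  obtain ⟨u2, hu2A, hu2⟩ := ((h2 t ht (nearmono hnt (hδ.trans e3))).1 s hs
    (nearmono hns (hδ'.trans e3))).2
  have hsum : C1 * δ + C1 * δ' ≤ 2 * C1 * η := by
    have a1 := mul_le_mul_of_nonneg_left hδ hC1
    have a2 := mul_le_mul_of_nonneg_left hδ' hC1
    linarith
  have hu1near : Near z₀ (3 * r / 5) u1.g (C1 * δ + C1 * δ') := by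
    intro z hz
    have hz34 : z ∈ ball z₀ (3 * r / 4) := ball_subset_ball (by linarith) hz
    have h6 : u1.g z = s.g (t.g z) := (hu1 z hz34).1
    have h7 : t.g z ∈ ball z₀ (3 * r / 4) :=
      ball_subset_ball (by linarith) (mv hT hTs (by linarith) z hz)
    rw [h6]
    calc ‖s.g (t.g z) - z‖ = ‖(t.g z - z) + (s.g (t.g z) - t.g z)‖ := by congr 1; abel
      _ ≤ ‖t.g z - z‖ + ‖s.g (t.g z) - t.g z‖ := norm_add_le _ _
      _ ≤ C1 * δ + C1 * δ' := add_le_add (hT z hz34) (hS _ h7)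
  have hu2near : Near z₀ (3 * r / 5) u2.g (C1 * δ + C1 * δ') := by
    intro z hz
    have hz34 : z ∈ ball z₀ (3 * r / 4) := ball_subset_ball (by linarith) hz
    have h6 : u2.g z = t.g (s.g z) := (hu2 z hz34).1
    have h7 : s.g z ∈ ball z₀ (3 * r / 4) :=
      ball_subset_ball (by linarith) (mv hS hSs (by linarith) z hz)
    rw [h6]
    calc ‖t.g (s.g z) - z‖ = ‖(t.g (s.g z) - s.g z) + (s.g z - z)‖ := by congr 1; abel
      _ ≤ ‖t.g (s.g z) - s.g z‖ + ‖s.g z - z‖ := norm_add_le _ _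
      _ ≤ C1 * δ + C1 * δ' := add_le_add (hT _ h7) (hS z hz34)
  have hsub : ball z₀ (r / 2) ⊆ ball z₀ (3 * r / 5) := ball_subset_ball (by linarith)
  have hu1n : ∀ c, C1 * δ + C1 * δ' ≤ c → Near z₀ (r / 2) u1.g c :=
    fun c hc z hz => (hu1near z (hsub hz)).trans hc
  have hu2n : ∀ c, C1 * δ + C1 * δ' ≤ c → Near z₀ (r / 2) u2.g c :=
    fun c hc z hz => (hu2near z (hsub hz)).trans hc
  -- inverse of u1
  obtain ⟨v, hvA, hv1, -, -, hvnear⟩ := (h2' u1 hu1A (hu1n _ (hsum.trans e8))).2.2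
  -- the commutator
  obtain ⟨c, hcA, hc⟩ := ((h2 u2 hu2A (hu2n _ (hsum.trans e7))).1 v hvA
    (fun z hz => hvnear z (ball_subset_ball (by linarith) hz))).2
  -- the relations on the ball of radius 3 r / 5
  have hrel : ∀ z ∈ ball z₀ (3 * r / 5),
      c.g (s.g (t.g z)) = t.g (s.g z) ∧
      c.a (s.g (t.g z)) * (s.a (t.g z) * t.a z) = t.a (s.g z) * s.a z ∧
      c.a (s.g (t.g z)) * (s.a (t.g z) * t.β z + s.β (t.g z)) + c.β (s.g (t.g z)) =
        t.a (s.g z) * s.β z + t.β (s.g z) := by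
    intro z hz
    have hz34 : z ∈ ball z₀ (3 * r / 4) := ball_subset_ball (by linarith) hz
    have hy34 : s.g (t.g z) ∈ ball z₀ (3 * r / 4) :=
      ball_subset_ball (by linarith) (mv hS hSs (by linarith) _ (mv hT hTs (by linarith) z hz))
    obtain ⟨a1, a2, a3⟩ := hu1 z hz34
    obtain ⟨b1, b2, b3⟩ := hu2 z hz34
    obtain ⟨v1, v2, v3⟩ := hv1 z hz34
    obtain ⟨c1, c2, c3⟩ := hc _ hy34
    simp only [Tri.comp, Tri.one, id] at a1 a2 a3 b1 b2 b3 v1 v2 v3 c1 c2 c3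
    rw [a1] at v1 v2 v3
    rw [a2] at v2
    rw [a3] at v3
    rw [v1] at c1 c2 c3
    refine ⟨c1.trans b1, ?_, ?_⟩
    · rw [c2, mul_assoc, v2, mul_one, b2]
    · rw [c2, c3, ← b3]
      linear_combination (u2.a z) * v3
  -- every point of the smaller ball is of the form s.g (t.g x)
  have hpick : ∀ y ∈ ball z₀ (r / 2), ∃ x ∈ ball z₀ (3 * r / 5), s.g (t.g x) = y ∧
      ‖x - y‖ ≤ r / 12 := by
    intro y hy
    obtain ⟨x, hx, hxy, hxn⟩ := (h3 u1.g ((hL.g_holo u1 hu1A).mono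
      (ball_subset_ball (by linarith))) (fun z hz => (hu1near z hz).trans (hsum.trans e9))).1 y hy
    refine ⟨x, hx, ?_, hxn⟩
    have := (hu1 x (ball_subset_ball (by linarith) hx)).1
    rw [← hxy, this]
    rfl
  -- Lipschitz bounds for the displacements
  have lipD : ∀ w ∈ A, ∀ a : ℝ, Near z₀ (3 * r / 4) w.g a → ∀ x ∈ ball z₀ (2 * r / 3),
      ∀ y ∈ ball z₀ (2 * r / 3), ‖(w.g x - x) - (w.g y - y)‖ ≤ 12 * a / r * ‖x - y‖ := by
    intro w hw a ha x hx y hy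
    have hd : DifferentiableOn ℂ (fun z => w.g z - z) (ball z₀ (3 * r / 4)) :=
      ((hL.g_holo w hw).mono (ball_subset_ball (by linarith))).sub differentiableOn_id
    have hb := cauchyB (ρ := 2 * r / 3) (ρ' := 3 * r / 4) (by linarith) hd ha
    have hb' : ∀ z ∈ ball z₀ (2 * r / 3), ‖fderiv ℂ (fun z => w.g z - z) z‖ ≤ 12 * a / r := by
      intro z hz
      refine (hb z hz).trans (le_of_eq ?_)
      field_simp
      ring
    exact lipB (ρ := 2 * r / 3) (ρ' := 3 * r / 4) (by linarith) hd hb' x hx y hy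
  have hK4δ : ∀ d : ℝ, 0 ≤ d → C4 * d ≤ K4 * d := fun d hd =>
    mul_le_mul_of_nonneg_right (le_abs_self _) hd
  have ha4 : ∀ w ∈ A, ∀ d : ℝ, 0 ≤ d → d ≤ η → Near z₀ (r / 2) w.g d →
      (∀ z ∈ ball z₀ (r / 3), |‖w.a z‖ - 1| ≤ K4 * d) ∧
      ∀ x ∈ ball z₀ (r / 4), ∀ y ∈ ball z₀ (r / 4),
        ‖w.a x - w.a y‖ ≤ 48 * K4 * d / r * ‖x - y‖ := by
    intro w hw d hd0 hd hn
    have hl : ∀ z ∈ ball z₀ (r / 3), |‖w.a z‖ - 1| ≤ K4 * d := fun z hz =>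
      (h4 w hw d (hd.trans e5) hn z hz).trans (hK4δ d hd0)
    refine ⟨hl, ?_⟩
    have hε : K4 * d ≤ 1 := by
      have := mul_le_mul_of_nonneg_left hd hK40
      linarith
    have hda : DifferentiableOn ℂ w.a (ball z₀ (r / 3)) :=
      (hL.a_holo w hw).mono (ball_subset_ball (by linarith))
    have hp := hPICK z₀ (r / 4) (r / 3) (by linarith) w.a (K4 * d) hε hda hl
    have hp' : ∀ z ∈ ball z₀ (r / 4), ‖fderiv ℂ w.a z‖ ≤ 48 * K4 * d / r := by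
      intro z hz
      refine (hp z hz).trans (le_of_eq ?_)
      field_simp
      ring
    exact lipB (ρ := r / 4) (ρ' := r / 3) (by linarith) hda hp'
  obtain ⟨hta, htL⟩ := ha4 t ht δ hδ0 hδ hnt
  obtain ⟨hsa, hsL⟩ := ha4 s hs δ' hδ'0 hδ' hns
  -- the functions β
  have hb5 : ∀ w ∈ A, Near z₀ (r / 2) w.g η5 →
      (∀ z ∈ ball z₀ r, ‖w.β z‖ ≤ K5 * (1 + ‖w.β z₀‖)) ∧
      ∀ x ∈ ball z₀ (r / 4), ∀ y ∈ ball z₀ (r / 4),
        ‖w.β x - w.β y‖ ≤ 4 * (K5 * (1 + ‖w.β z₀‖)) / r * ‖x - y‖ := by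
    intro w hw hn
    have hl : ∀ z ∈ ball z₀ r, ‖w.β z‖ ≤ K5 * (1 + ‖w.β z₀‖) := fun z hz =>
      (h5 w hw hn z hz).trans (mul_le_mul_of_nonneg_right (le_abs_self _) (by positivity))
    refine ⟨hl, ?_⟩
    have hdb : DifferentiableOn ℂ w.β (ball z₀ (r / 2)) :=
      (hL.b_holo w hw).mono (ball_subset_ball (by linarith))
    have hp := cauchyB (ρ := r / 4) (ρ' := r / 2) (by linarith) hdb
      (fun z hz => hl z (ball_subset_ball (by linarith) hz))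
    have hp' : ∀ z ∈ ball z₀ (r / 4), ‖fderiv ℂ w.β z‖ ≤ 4 * (K5 * (1 + ‖w.β z₀‖)) / r := by
      intro z hz
      refine (hp z hz).trans (le_of_eq ?_)
      field_simp
      ring
    exact lipB (ρ := r / 4) (ρ' := r / 2) (by linarith) hdb hp'
  obtain ⟨htb, htbL⟩ := hb5 t ht (nearmono hnt (hδ.trans e6))
  obtain ⟨hsb, hsbL⟩ := hb5 s hs (nearmono hns (hδ'.trans e6))
  -- (1)
  have est1 : Near z₀ (r / 2) c.g (24 * C1 ^ 2 / r * δ * δ') := by
    intro y hy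
    obtain ⟨x, hx, hxy, -⟩ := hpick y hy
    obtain ⟨a1, -, -⟩ := hrel x hx
    rw [hxy] at a1
    have hx34 : x ∈ ball z₀ (3 * r / 4) := ball_subset_ball (by linarith) hx
    have hx23 : x ∈ ball z₀ (2 * r / 3) := ball_subset_ball (by linarith) hx
    have hsx : s.g x ∈ ball z₀ (2 * r / 3) :=
      ball_subset_ball (by linarith) (mv hS hSs (by linarith) x hx)
    have htx : t.g x ∈ ball z₀ (2 * r / 3) :=
      ball_subset_ball (by linarith) (mv hT hTs (by linarith) x hx)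
    have b1 := lipD t ht _ hT (s.g x) hsx x hx23
    have b2 := lipD s hs _ hS (t.g x) htx x hx23
    have b3 := hS x hx34
    have b4 := hT x hx34
    have key : c.g y - y = ((t.g (s.g x) - s.g x) - (t.g x - x)) -
        ((s.g (t.g x) - t.g x) - (s.g x - x)) := by
      rw [a1, hxy]; abel
    rw [key]
    calc _ ≤ ‖(t.g (s.g x) - s.g x) - (t.g x - x)‖ + ‖(s.g (t.g x) - t.g x) - (s.g x - x)‖ :=
          norm_sub_le _ _
      _ ≤ 12 * (C1 * δ) / r * (C1 * δ') + 12 * (C1 * δ') / r * (C1 * δ) := by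
          apply add_le_add
          · exact b1.trans (mul_le_mul_of_nonneg_left b3 (by positivity))
          · exact b2.trans (mul_le_mul_of_nonneg_left b4 (by positivity))
      _ = 24 * C1 ^ 2 / r * δ * δ' := by ring
  -- the point x with s.g (t.g x) = z₀
  obtain ⟨x, hx, hxy, hxn⟩ := hpick z₀ hz₀
  obtain ⟨-, a2, a3⟩ := hrel x hx
  rw [hxy] at a2 a3
  have hx34 : x ∈ ball z₀ (3 * r / 4) := ball_subset_ball (by linarith) hx
  have hxb : x ∈ ball z₀ (r / 8) := by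
    rw [mem_ball, dist_eq_norm]; linarith
  have hx4 : x ∈ ball z₀ (r / 4) := ball_subset_ball (by linarith) hxb
  have hsx4 : s.g x ∈ ball z₀ (r / 4) :=
    ball_subset_ball (by linarith) (mv hS hSs (by linarith) x hxb)
  have htx4 : t.g x ∈ ball z₀ (r / 4) :=
    ball_subset_ball (by linarith) (mv hT hTs (by linarith) x hxb)
  have h43 : ball z₀ (r / 4) ⊆ ball z₀ (r / 3) := ball_subset_ball (by linarith)
  have hz4 : z₀ ∈ ball z₀ (r / 4) := mem_ball_self (by positivity)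
  have hSx := hS x hx34
  have hTx := hT x hx34
  -- values of a
  have vt : ∀ z ∈ ball z₀ (r / 4), 1 / 2 ≤ ‖t.a z‖ ∧ ‖t.a z‖ ≤ 3 / 2 := by
    intro z hz
    have := abs_le.1 ((hta z (h43 hz)).trans
      ((mul_le_mul_of_nonneg_left hδ hK40).trans e11))
    constructor <;> linarith
  have vs : ∀ z ∈ ball z₀ (r / 4), 1 / 2 ≤ ‖s.a z‖ ∧ ‖s.a z‖ ≤ 3 / 2 := by
    intro z hz
    have := abs_le.1 ((hsa z (h43 hz)).trans
      ((mul_le_mul_of_nonneg_left hδ' hK40).trans e11))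
    constructor <;> linarith
  have d1 : ‖t.a (s.g x) - t.a x‖ ≤ 48 * K4 * C1 / r * δ * δ' := by
    refine (htL _ hsx4 _ hx4).trans ?_
    calc 48 * K4 * δ / r * ‖s.g x - x‖ ≤ 48 * K4 * δ / r * (C1 * δ') := by gcongr
      _ = _ := by ring
  have d2 : ‖s.a x - s.a (t.g x)‖ ≤ 48 * K4 * C1 / r * δ * δ' := by
    rw [norm_sub_rev]
    refine (hsL _ htx4 _ hx4).trans ?_
    calc 48 * K4 * δ' / r * ‖t.g x - x‖ ≤ 48 * K4 * δ' / r * (C1 * δ) := by gcongr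
      _ = _ := by ring
  -- (2)
  have est2 : ‖c.a z₀ - 1‖ ≤ K2 * δ * δ' := by
    have n1 := (vt x hx4).1
    have n2 := (vs _ htx4).1
    have n3 := (vt x hx4).2
    have n4 := (vs _ hx4).2
    have hq : s.a (t.g x) * t.a x ≠ 0 := by
      apply mul_ne_zero
      · intro h; rw [h, norm_zero] at n2; linarith
      · intro h; rw [h, norm_zero] at n1; linarith
    have hid : (c.a z₀ - 1) * (s.a (t.g x) * t.a x) =
        (t.a (s.g x) - t.a x) * s.a x + t.a x * (s.a x - s.a (t.g x)) := by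
      linear_combination a2
    have h8 : ‖c.a z₀ - 1‖ * (‖s.a (t.g x)‖ * ‖t.a x‖) ≤
        48 * K4 * C1 / r * δ * δ' * (3 / 2) + 3 / 2 * (48 * K4 * C1 / r * δ * δ') := by
      rw [← norm_mul, ← norm_mul, hid]
      refine (norm_add_le _ _).trans ?_
      rw [norm_mul, norm_mul]
      exact add_le_add (mul_le_mul d1 n4 (norm_nonneg _) (by positivity))
        (mul_le_mul n3 d2 (norm_nonneg _) (by norm_num))
    have h9 : 1 / 4 ≤ ‖s.a (t.g x)‖ * ‖t.a x‖ := by nlinarith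
    have h10 : ‖c.a z₀ - 1‖ * (1 / 4) ≤ ‖c.a z₀ - 1‖ * (‖s.a (t.g x)‖ * ‖t.a x‖) :=
      mul_le_mul_of_nonneg_left h9 (norm_nonneg _)
    have h11 : K2 * δ * δ' = 12 * (48 * K4 * C1 / r * δ * δ') := by rw [hK2]; ring
    rw [h11]
    linarith
  -- (3)
  set Ms : ℝ := K5 * (1 + ‖s.β z₀‖) with hMs
  set Mt : ℝ := K5 * (1 + ‖t.β z₀‖) with hMt
  have hMs0 : 0 ≤ Ms := by positivity
  have hMt0 : 0 ≤ Mt := by positivity
  have hr4 : ball z₀ (r / 4) ⊆ ball z₀ r := ball_subset_ball (by linarith)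
  have f1 : ‖t.a (s.g x) - 1‖ ≤ ‖t.a z₀ - 1‖ + 12 * K4 * δ := by
    have g1 := htL _ hsx4 _ hz4
    have g2 : ‖s.g x - z₀‖ ≤ r / 4 := by
      have := hsx4; rw [mem_ball, dist_eq_norm] at this; exact this.le
    have g3 : 48 * K4 * δ / r * ‖s.g x - z₀‖ ≤ 12 * K4 * δ := by
      calc _ ≤ 48 * K4 * δ / r * (r / 4) := by gcongr
        _ = 12 * K4 * δ := by field_simp; ring
    calc ‖t.a (s.g x) - 1‖ = ‖(t.a z₀ - 1) + (t.a (s.g x) - t.a z₀)‖ := by congr 1; ring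
      _ ≤ ‖t.a z₀ - 1‖ + ‖t.a (s.g x) - t.a z₀‖ := norm_add_le _ _
      _ ≤ _ := by linarith
  have f2 : ‖1 - s.a (t.g x)‖ ≤ ‖s.a z₀ - 1‖ + 12 * K4 * δ' := by
    have g1 := hsL _ htx4 _ hz4
    have g2 : ‖t.g x - z₀‖ ≤ r / 4 := by
      have := htx4; rw [mem_ball, dist_eq_norm] at this; exact this.le
    have g3 : 48 * K4 * δ' / r * ‖t.g x - z₀‖ ≤ 12 * K4 * δ' := by
      calc _ ≤ 48 * K4 * δ' / r * (r / 4) := by gcongr
        _ = 12 * K4 * δ' := by field_simp; ring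
    rw [norm_sub_rev]
    calc ‖s.a (t.g x) - 1‖ = ‖(s.a z₀ - 1) + (s.a (t.g x) - s.a z₀)‖ := by congr 1; ring
      _ ≤ ‖s.a z₀ - 1‖ + ‖s.a (t.g x) - s.a z₀‖ := norm_add_le _ _
      _ ≤ _ := by linarith
  have f3 : ‖s.β x - s.β (t.g x)‖ ≤ 4 * C1 / r * δ * Ms := by
    rw [norm_sub_rev]
    refine (hsbL _ htx4 _ hx4).trans ?_
    calc 4 * Ms / r * ‖t.g x - x‖ ≤ 4 * Ms / r * (C1 * δ) := by gcongr
      _ = _ := by ring
  have f4 : ‖t.β (s.g x) - t.β x‖ ≤ 4 * C1 / r * δ' * Mt := by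
    refine (htbL _ hsx4 _ hx4).trans ?_
    calc 4 * Mt / r * ‖s.g x - x‖ ≤ 4 * Mt / r * (C1 * δ') := by gcongr
      _ = _ := by ring
  have f5 : ‖s.a (t.g x) * t.β x + s.β (t.g x)‖ ≤ 2 * Mt + Ms := by
    refine (norm_add_le _ _).trans ?_
    rw [norm_mul]
    have g1 : ‖s.a (t.g x)‖ * ‖t.β x‖ ≤ 3 / 2 * Mt :=
      mul_le_mul (vs _ htx4).2 (htb _ (hr4 hx4)) (norm_nonneg _) (by norm_num)
    have g2 := hsb _ (hr4 htx4)
    linarith
  have hδδ : K2 * δ * δ' ≤ K2 * δ ∧ K2 * δ * δ' ≤ K2 * δ' := by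
    constructor
    · exact mul_le_of_le_one_right (by positivity) (hδ'.trans e1)
    · have : K2 * δ * δ' = K2 * δ' * δ := by ring
      rw [this]
      exact mul_le_of_le_one_right (by positivity) (hδ.trans e1)
  have est3 : ‖c.β z₀‖ ≤ (1 + 12 * K4 + 4 * C1 / r + 2 * K2) *
      ((‖t.a z₀ - 1‖ + δ) * Ms + (‖s.a z₀ - 1‖ + δ') * Mt) := by
    have hid : c.β z₀ = (t.a (s.g x) - 1) * s.β x + (s.β x - s.β (t.g x)) +
        (t.β (s.g x) - t.β x) + (1 - s.a (t.g x)) * t.β x +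
        (-(c.a z₀ - 1)) * (s.a (t.g x) * t.β x + s.β (t.g x)) := by
      linear_combination a3
    have g0 : ‖c.β z₀‖ ≤ ‖t.a (s.g x) - 1‖ * ‖s.β x‖ + ‖s.β x - s.β (t.g x)‖ +
        ‖t.β (s.g x) - t.β x‖ + ‖1 - s.a (t.g x)‖ * ‖t.β x‖ +
        ‖c.a z₀ - 1‖ * ‖s.a (t.g x) * t.β x + s.β (t.g x)‖ := by
      rw [hid]
      refine (norm_add_le _ _).trans (add_le_add ?_ ?_)
      · refine (norm_add_le _ _).trans (add_le_add ?_ (norm_mul _ _).le)
        refine (norm_add_le _ _).trans (add_le_add ?_ le_rfl)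
        exact (norm_add_le _ _).trans (add_le_add (norm_mul _ _).le le_rfl)
      · rw [norm_mul, norm_neg]
    have g1 : ‖t.a (s.g x) - 1‖ * ‖s.β x‖ ≤ (‖t.a z₀ - 1‖ + 12 * K4 * δ) * Ms :=
      mul_le_mul f1 (hsb _ (hr4 hx4)) (norm_nonneg _) (by positivity)
    have g2 : ‖1 - s.a (t.g x)‖ * ‖t.β x‖ ≤ (‖s.a z₀ - 1‖ + 12 * K4 * δ') * Mt :=
      mul_le_mul f2 (htb _ (hr4 hx4)) (norm_nonneg _) (by positivity)
    have g3 : ‖c.a z₀ - 1‖ * ‖s.a (t.g x) * t.β x + s.β (t.g x)‖ ≤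
        K2 * δ' * (2 * Mt) + K2 * δ * Ms := by
      calc _ ≤ K2 * δ * δ' * (2 * Mt + Ms) :=
            mul_le_mul est2 f5 (norm_nonneg _) (by positivity)
        _ = K2 * δ * δ' * (2 * Mt) + K2 * δ * δ' * Ms := by ring
        _ ≤ _ := add_le_add (mul_le_mul_of_nonneg_right hδδ.2 (by positivity))
            (mul_le_mul_of_nonneg_right hδδ.1 hMs0)
    have hC1r : 0 ≤ 4 * C1 / r := by positivity
    have q1 : 0 ≤ ‖t.a z₀ - 1‖ * Ms := by positivity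
    have q2 : 0 ≤ ‖s.a z₀ - 1‖ * Mt := by positivity
    have q3 : 0 ≤ δ * Ms := by positivity
    have q4 : 0 ≤ δ' * Mt := by positivity
    have q5 := mul_nonneg hK40 q1
    have q6 := mul_nonneg hK40 q2
    have q7 := mul_nonneg hC1r q1
    have q8 := mul_nonneg hC1r q2
    have q9 := mul_nonneg hK20 q1
    have q10 := mul_nonneg hK20 q2
    have q11 := mul_nonneg hK20 q3
    nlinarith [q1, q2, q3, q4, q5, q6, q7, q8, q9, q10, q11]
  have hr0 : 0 ≤ C1 ^ 2 / r := by positivity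
  have hC1r : 0 ≤ 4 * C1 / r := by positivity
  refine ⟨c, hcA, ⟨3 * r / 5, by positivity, ?_⟩, ?_, ?_, ?_⟩
  · intro z hz
    obtain ⟨a1, a2, a3⟩ := hrel z hz
    exact ⟨a1, a2, a3⟩
  · intro z hz
    refine (est1 z hz).trans ?_
    gcongr
    have : 0 ≤ K5 * (1 + 12 * K4 + 4 * C1 / r + 2 * K2) := by positivity
    linarith
  · refine est2.trans ?_
    gcongr
    have : 0 ≤ K5 * (1 + 12 * K4 + 4 * C1 / r + 2 * K2) := by positivity
    have : 0 ≤ 24 * C1 ^ 2 / r := by positivity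
    linarith
  · refine est3.trans ?_
    have hE : (1 + 12 * K4 + 4 * C1 / r + 2 * K2) *
      ((‖t.a z₀ - 1‖ + δ) * Ms + (‖s.a z₀ - 1‖ + δ') * Mt) =
      K5 * (1 + 12 * K4 + 4 * C1 / r + 2 * K2) *
      ((‖t.a z₀ - 1‖ + δ) * (1 + ‖s.β z₀‖) + (‖s.a z₀ - 1‖ + δ') * (1 + ‖t.β z₀‖)) := by
      rw [hMs, hMt]; ring
    rw [hE]
    gcongr
    have : 0 ≤ 24 * C1 ^ 2 / r := by positivity
    linarith

end Pool.Agent.Helper74.SP
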