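import Pool.Agent.Helper10.SP.GoalsE
import Pool.Agent.Helper74.SP.COMM

/-!
# RETN: returns near the identity (packet for Helper10/SP)
-/

open Complex Metric Set Filter Topology MeasureTheory
open scoped ContDiff ComplexConjugate

namespace Pool.Agent.Helper74.SP

open Pool.Agent.Helper95.Lin Pool.Agent.Helper10.SP

/-- The identity theorem on a ball. -/
theorem idB {b : ℕ} {F : Type*} [NormedAddCommGroup F] [NormedSpace ℂ F] [CompleteSpace F]
    {c : Cn b} {ρ : ℝ} {f : Cn b → F} (hf : DifferentiableOn ℂ f (ball c ρ))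
    (h0 : ∀ᶠ z in 𝓝 c, f z = 0) : ∀ z ∈ ball c ρ, f z = 0 := by
  intro z hz
  have hρ : 0 < ρ := (dist_nonneg).trans_lt (mem_ball.1 hz)
  have hzn : ‖z - c‖ < ρ := by rwa [mem_ball, dist_eq_norm] at hz
  set S : Set ℂ := {ζ | ‖ζ‖ * ‖z - c‖ < ρ} with hS
  have hSopen : IsOpen S := isOpen_lt (continuous_norm.mul continuous_const) continuous_const
  have hSconv : Convex ℝ S := by
    intro x hx y hy a b' ha hb' hab
    simp only [hS, mem_setOf_eq] at hx hy ⊢
    have h1 : ‖a • x + b' • y‖ ≤ a * ‖x‖ + b' * ‖y‖ := by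
      refine (norm_add_le _ _).trans (le_of_eq ?_)
      rw [norm_smul, norm_smul, Real.norm_of_nonneg ha, Real.norm_of_nonneg hb']
    rcases ha.eq_or_lt with rfl | ha'
    · have : b' = 1 := by linarith
      subst this
      simpa using hy
    calc ‖a • x + b' • y‖ * ‖z - c‖ ≤ (a * ‖x‖ + b' * ‖y‖) * ‖z - c‖ :=
          mul_le_mul_of_nonneg_right h1 (norm_nonneg _)
      _ = a * (‖x‖ * ‖z - c‖) + b' * (‖y‖ * ‖z - c‖) := by ring
      _ < a * ρ + b' * ρ := by nlinarith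
      _ = ρ := by rw [← add_mul, hab, one_mul]
  have hline : ∀ ζ : ℂ, HasDerivAt (fun ζ : ℂ => c + ζ • (z - c)) (z - c) ζ := by
    intro ζ
    have h0 : HasDerivAt (fun ζ : ℂ => ζ • (z - c)) ((1 : ℂ) • (z - c)) ζ :=
      (hasDerivAt_id ζ).smul_const (z - c)
    rw [one_smul] at h0
    simpa using h0.const_add c
  have hmaps : ∀ ζ ∈ S, c + ζ • (z - c) ∈ ball c ρ := by
    intro ζ hζ
    rw [mem_ball, dist_eq_norm, add_sub_cancel_left, norm_smul]
    exact hζ
  have hg : DifferentiableOn ℂ (fun ζ : ℂ => f (c + ζ • (z - c))) S := by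
    intro ζ hζ
    have h3 : DifferentiableAt ℂ f (c + ζ • (z - c)) :=
      hf.differentiableAt (isOpen_ball.mem_nhds (hmaps ζ hζ))
    exact (h3.comp ζ (hline ζ).differentiableAt).differentiableWithinAt
  have h0S : (0 : ℂ) ∈ S := by simp [hS, hρ]
  have h1S : (1 : ℂ) ∈ S := by simp [hS, hzn]
  have hev : (fun ζ : ℂ => f (c + ζ • (z - c))) =ᶠ[𝓝 0] 0 := by
    have hc : Tendsto (fun ζ : ℂ => c + ζ • (z - c)) (𝓝 0) (𝓝 c) := by
      have := (hline 0).continuousAt.tendsto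
      simpa using this
    exact hc.eventually h0
  have := (hg.analyticOnNhd hSopen).eqOn_zero_of_preconnected_of_eventuallyEq_zero
    hSconv.isPreconnected h0S hev h1S
  simpa using this

theorem retn (hNCV : S_NCV) (hNET : S_NET) : S_RETN := by
  intro b N c R P Φ C hA i ε hε
  have hC : 1 ≤ C := hA.Cge
  have hC0 : 0 < C := by linarith
  obtain ⟨η₀, hη₀, hncv⟩ := hNCV c R P Φ C hA i (c i) (1 / C) (by positivity)
    (ball_subset_ball (by rw [div_le_iff₀ hC0]; linarith)) 3 (by norm_num) ε hε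
  set A : Set (Tri b) := {s | Big c P i s ∧ s.g (c i) ∈ Bd c 1} with hAdef
  obtain ⟨η, hη, hη1, hη2, hη3⟩ : ∃ η : ℝ, 0 < η ∧ η < 1 ∧ C * η < 2 ∧ 2 * C ^ 2 * η ≤ η₀ := by
    refine ⟨min (1 / (2 * C)) (η₀ / (2 * C ^ 2)), lt_min (by positivity) (by positivity), ?_, ?_, ?_⟩
    · refine (min_le_left _ _).trans_lt ?_
      rw [div_lt_iff₀ (by positivity)]; linarith
    · calc C * min (1 / (2 * C)) (η₀ / (2 * C ^ 2)) ≤ C * (1 / (2 * C)) :=
            mul_le_mul_of_nonneg_left (min_le_left _ _) hC0.le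
        _ = 1 / 2 := by field_simp
        _ < 2 := by norm_num
    · calc 2 * C ^ 2 * min (1 / (2 * C)) (η₀ / (2 * C ^ 2)) ≤ 2 * C ^ 2 * (η₀ / (2 * C ^ 2)) :=
            mul_le_mul_of_nonneg_left (min_le_right _ _) (by positivity)
        _ = η₀ := by field_simp
  obtain ⟨n, s, hsA, hnet⟩ := hNET c R P Φ C hA i A (fun t ht => ht.1) η hη
  have hci2 : c i ∈ ball (c i) 2 := mem_ball_self (by norm_num)
  have hci4 : c i ∈ ball (c i) 4 := mem_ball_self (by norm_num)
  have hciB : c i ∈ Bd c 2 := mem_iUnion.2 ⟨i, hci2⟩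
  have hciR : c i ∈ Bd c R := (hA.holo _ _ (hA.mono (Bd c R) (Bd c R) _
    (hA.one (Bd c R) (isOpen_iUnion fun _ => isOpen_ball) subset_rfl)
    (isOpen_iUnion fun _ => isOpen_ball) subset_rfl)).2.1 (by
      refine mem_iUnion.2 ⟨i, mem_ball_self ?_⟩
      have := hA.Rge; linarith)
  -- the inverses
  have hinv : ∀ k : Fin n, ∃ (j : Fin N) (rk : Tri b), (s k).g (c i) ∈ ball (c j) 1 ∧
      Big c P j rk ∧ rk.g ((s k).g (c i)) = c i ∧
      ∀ z ∈ ball (c i) (1 / C), rk.g ((s k).g z) = z ∧ rk.a ((s k).g z) * (s k).a z = 1 := by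
    intro k
    obtain ⟨hbig, hy⟩ := hsA k
    obtain ⟨j, hj⟩ := mem_iUnion.1 hy
    obtain ⟨s', U', U'', hs', hyU', hU''o, hciU'', hU''4, hmaps, heq⟩ :=
      hA.inv _ _ hbig.1 (c i) hci4
    have he := heq (c i) hciU''
    have hs'y : s'.g ((s k).g (c i)) = c i := he.1
    obtain ⟨rk, U3, hrk, hU3o, hyU3, hU3U', hreq⟩ := hA.ext j ((s k).g (c i))
      (ball_subset_ball (by norm_num) hj) U' s' hs' hyU' (by rw [hs'y]; exact hciB)
    have hrky : rk.g ((s k).g (c i)) = c i := by rw [(hreq _ hyU3).1, hs'y]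
    have hrkBig : Big c P j rk := ⟨hrk, (s k).g (c i), ball_subset_ball (by norm_num) hj, by
      rw [hrky]; exact hciB⟩
    refine ⟨j, rk, hj, hrkBig, hrky, ?_⟩
    -- near c i
    obtain ⟨-, -, hgs, has, -, -⟩ := hA.holo _ _ hbig.1
    obtain ⟨-, -, hgr, har, -, -⟩ := hA.holo _ _ hrk
    have hmap : MapsTo (s k).g (ball (c i) (1 / C)) (ball (c j) 4) := by
      intro z hz
      have hz4 : z ∈ ball (c i) 4 := ball_subset_ball (by rw [div_le_iff₀ hC0]; linarith) hz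
      have h1 := hA.lip i _ hbig z hz4 (c i) hci4
      rw [mem_ball, dist_eq_norm] at hz hj ⊢
      have h2 : C * ‖z - c i‖ < 1 := by
        have := mul_lt_mul_of_pos_left hz hC0
        rwa [mul_one_div_cancel hC0.ne'] at this
      calc ‖(s k).g z - c j‖ = ‖((s k).g z - (s k).g (c i)) + ((s k).g (c i) - c j)‖ := by
            congr 1; abel
        _ ≤ ‖(s k).g z - (s k).g (c i)‖ + ‖(s k).g (c i) - c j‖ := norm_add_le _ _
        _ < 4 := by linarith
    have hsub4 : ball (c i) (1 / C) ⊆ ball (c i) 4 :=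
      ball_subset_ball (by rw [div_le_iff₀ hC0]; linarith)
    have hcont : ContinuousAt (s k).g (c i) :=
      (hgs.differentiableAt (isOpen_ball.mem_nhds hci4)).continuousAt
    have hev : ∀ᶠ z in 𝓝 (c i), rk.g ((s k).g z) = z ∧ rk.a ((s k).g z) * (s k).a z = 1 := by
      filter_upwards [hU''o.mem_nhds hciU'', hcont.preimage_mem_nhds (hU3o.mem_nhds hyU3)]
        with z hz1 hz2
      obtain ⟨e1, e2, -⟩ := heq z hz1
      obtain ⟨e3, e4, -⟩ := hreq _ hz2
      simp only [Tri.comp, Tri.one, id] at e1 e2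
      rw [e3, e4]
      exact ⟨e1, e2⟩
    have hd1 : DifferentiableOn ℂ (fun z => rk.g ((s k).g z) - z) (ball (c i) (1 / C)) :=
      (hgr.comp (hgs.mono hsub4) hmap).sub differentiableOn_id
    have hd2 : DifferentiableOn ℂ (fun z => rk.a ((s k).g z) * (s k).a z - 1)
        (ball (c i) (1 / C)) :=
      ((har.comp (hgs.mono hsub4) hmap).mul (has.mono hsub4)).sub (differentiableOn_const 1)
    intro z hz
    have i1 := idB hd1 (hev.mono fun z hz => by rw [hz.1, sub_self]) z hz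
    have i2 := idB hd2 (hev.mono fun z hz => by rw [hz.2, sub_self]) z hz
    exact ⟨sub_eq_zero.1 i1, sub_eq_zero.1 i2⟩
  choose j rk hj hrk hrky hrel using hinv
  refine ⟨C * (C + ∑ k, C * (1 + ‖(rk k).β (c (j k))‖)), ?_⟩
  intro w
  -- the element s_w
  obtain ⟨U, t', ht', hciU, hgB, hlt⟩ := hA.coc (c i) hciR (-w)
  have hBd12 : Bd c 1 ⊆ Bd c 2 := iUnion_mono fun _ => ball_subset_ball (by norm_num)
  obtain ⟨sw, U1, hsw, hU1o, hciU1, hU1U, hsweq⟩ := hA.ext i (c i) hci2 U t' ht' hciU (hBd12 hgB)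
  obtain ⟨q1, q2, q3⟩ := hsweq _ hciU1
  have hswB : sw.g (c i) ∈ Bd c 1 := by rw [q1]; exact hgB
  have hswBig : Big c P i sw := ⟨hsw, c i, hci2, hBd12 hswB⟩
  have hswlt : ‖sw.a (c i) * (-w) + sw.β (c i)‖ < 1 := by rw [q2, q3]; exact hlt
  obtain ⟨k, hk⟩ := hnet sw ⟨hswBig, hswB⟩
  have hsk := (hsA k).1
  have hci3 : c i ∈ ball (c i) 3 := mem_ball_self (by norm_num)
  have hyk := hj k
  have hsub4 : ball (c i) (1 / C) ⊆ ball (c i) 4 :=
    ball_subset_ball (by rw [div_le_iff₀ hC0]; linarith)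
  have hsub3 : ball (c i) (1 / C) ⊆ ball (c i) 3 :=
    ball_subset_ball (by rw [div_le_iff₀ hC0]; linarith)
  obtain ⟨-, -, hgw, haw, hbw, -⟩ := hA.holo _ _ hsw
  obtain ⟨-, -, hgr, har, hbr, -⟩ := hA.holo _ _ (hrk k).1
  -- images in the ball of radius 3 about c (j k)
  have himg : ∀ z ∈ ball (c i) (1 / C), (s k).g z ∈ ball (c (j k)) 2 ∧
      sw.g z ∈ ball (c (j k)) 3 := by
    intro z hz
    have hz4 := hsub4 hz
    have h1 := hA.lip i _ hsk z hz4 (c i) hci4
    have h3 := (hk z (hsub3 hz)).1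
    rw [mem_ball, dist_eq_norm] at hz hyk
    have h2 : C * ‖z - c i‖ < 1 := by
      have := mul_lt_mul_of_pos_left hz hC0
      rwa [mul_one_div_cancel hC0.ne'] at this
    have h4 : ‖(s k).g z - c (j k)‖ < 2 := by
      calc ‖(s k).g z - c (j k)‖ = ‖((s k).g z - (s k).g (c i)) + ((s k).g (c i) - c (j k))‖ := by
            congr 1; abel
        _ ≤ ‖(s k).g z - (s k).g (c i)‖ + ‖(s k).g (c i) - c (j k)‖ := norm_add_le _ _
        _ < 2 := by linarith
    refine ⟨by rw [mem_ball, dist_eq_norm]; exact h4, ?_⟩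
    rw [mem_ball, dist_eq_norm]
    calc ‖sw.g z - c (j k)‖ = ‖(sw.g z - (s k).g z) + ((s k).g z - c (j k))‖ := by
          congr 1; abel
      _ ≤ ‖sw.g z - (s k).g z‖ + ‖(s k).g z - c (j k)‖ := norm_add_le _ _
      _ < 3 := by linarith
  have hciC : c i ∈ ball (c i) (1 / C) := mem_ball_self (by positivity)
  have h34 : ball (c (j k)) 3 ⊆ ball (c (j k)) 4 := ball_subset_ball (by norm_num)
  have h24 : ball (c (j k)) 2 ⊆ ball (c (j k)) 4 := ball_subset_ball (by norm_num)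
  have hmapw : MapsTo sw.g (ball (c i) (1 / C)) (ball (c (j k)) 4) :=
    fun z hz => h34 (himg z hz).2
  have hPcomp : P (ball (c i) (1 / C)) ((rk k).comp sw) :=
    hA.comp _ _ _ _ _ (hrk k).1 hsw isOpen_ball hsub4 hmapw
  -- the displacement of the composition
  have hdispl : ∀ z ∈ ball (c i) (1 / C), ‖(rk k).g (sw.g z) - z‖ ≤ C * η := by
    intro z hz
    have h1 := hA.lip (j k) _ (hrk k) (sw.g z) (h34 (himg z hz).2) ((s k).g z)
      (h24 (himg z hz).1)
    rw [(hrel k z hz).1] at h1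
    exact h1.trans (mul_le_mul_of_nonneg_left (hk z (hsub3 hz)).1 hC0.le)
  have hciimg : ((rk k).comp sw).g (c i) ∈ Bd c 2 := by
    refine mem_iUnion.2 ⟨i, ?_⟩
    rw [mem_ball, dist_eq_norm]
    exact (hdispl _ hciC).trans_lt hη2
  obtain ⟨t, U2, ht, hU2o, hciU2, hU2U, hteq⟩ := hA.ext i (c i) hci2 _ _ hPcomp hciC hciimg
  have htBig : Big c P i t := ⟨ht, c i, hci2, by rw [(hteq _ hciU2).1]; exact hciimg⟩
  obtain ⟨-, -, hgt, hat, -, hnt⟩ := hA.holo _ _ ht
  -- equality on the ball of radius 1 / C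
  have hd1 : DifferentiableOn ℂ (fun z => t.g z - (rk k).g (sw.g z)) (ball (c i) (1 / C)) :=
    (hgt.mono hsub4).sub (hgr.comp (hgw.mono hsub4) hmapw)
  have hd2 : DifferentiableOn ℂ (fun z => t.a z - (rk k).a (sw.g z) * sw.a z)
      (ball (c i) (1 / C)) :=
    (hat.mono hsub4).sub ((har.comp (hgw.mono hsub4) hmapw).mul (haw.mono hsub4))
  have heqg : ∀ z ∈ ball (c i) (1 / C), t.g z = (rk k).g (sw.g z) := fun z hz =>
    sub_eq_zero.1 (idB hd1 (by
      filter_upwards [hU2o.mem_nhds hciU2] with z hz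
      rw [(hteq z hz).1]; exact sub_self _) z hz)
  have heqa : ∀ z ∈ ball (c i) (1 / C), t.a z = (rk k).a (sw.g z) * sw.a z := fun z hz =>
    sub_eq_zero.1 (idB hd2 (by
      filter_upwards [hU2o.mem_nhds hciU2] with z hz
      rw [(hteq z hz).2.1]; exact sub_self _) z hz)
  -- Lipschitz bound for the factor of the inverse
  have hLa : ∀ x ∈ ball (c (j k)) 3, ∀ y ∈ ball (c (j k)) 3,
      ‖(rk k).a x - (rk k).a y‖ ≤ C * ‖x - y‖ := by
    have hc := cauchyB (ρ := 3) (ρ' := 4) (by norm_num) har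
      (fun z hz => (hA.abd (j k) _ (hrk k) z hz).1)
    refine lipB (ρ := 3) (ρ' := 4) (by norm_num) har fun z hz => (hc z hz).trans (le_of_eq ?_)
    norm_num
  have hnear : ∀ z ∈ ball (c i) (1 / C), ‖t.g z - z‖ ≤ η₀ ∧ ‖t.a z - 1‖ ≤ η₀ := by
    intro z hz
    have hCη : C * η ≤ η₀ := by
      refine le_trans ?_ hη3
      nlinarith [mul_pos hC0 hη]
    refine ⟨?_, ?_⟩
    · rw [heqg z hz]; exact (hdispl z hz).trans hCη
    · rw [heqa z hz, ← (hrel k z hz).2]
      have hz3 := hk z (hsub3 hz)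
      have e1 : (rk k).a (sw.g z) * sw.a z - (rk k).a ((s k).g z) * (s k).a z =
          ((rk k).a (sw.g z) - (rk k).a ((s k).g z)) * sw.a z +
          (rk k).a ((s k).g z) * (sw.a z - (s k).a z) := by ring
      rw [e1]
      have e2 := hLa _ (himg z hz).2 _ (ball_subset_ball (by norm_num) (himg z hz).1)
      have e3 := (hA.abd i _ hswBig z (hsub4 hz)).1
      have e4 := (hA.abd (j k) _ (hrk k) _ (h24 (himg z hz).1)).1
      calc _ ≤ ‖(rk k).a (sw.g z) - (rk k).a ((s k).g z)‖ * ‖sw.a z‖ +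
            ‖(rk k).a ((s k).g z)‖ * ‖sw.a z - (s k).a z‖ := by
            refine (norm_add_le _ _).trans ?_
            rw [norm_mul, norm_mul]
        _ ≤ (C * η) * C + C * η := by
            apply add_le_add
            · exact mul_le_mul (e2.trans (mul_le_mul_of_nonneg_left hz3.1 hC0.le)) e3
                (norm_nonneg _) (by positivity)
            · exact mul_le_mul e4 hz3.2 (norm_nonneg _) hC0.le
        _ ≤ 2 * C ^ 2 * η := by nlinarith [mul_pos hC0 hη]
        _ ≤ η₀ := hη3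
  refine ⟨t, ⟨htBig, hncv t htBig hnear⟩, ?_⟩
  -- the bound for q
  obtain ⟨p1, p2, p3⟩ := hteq _ hciU2
  have hta0 : t.a (c i) ≠ 0 := (hnt _ hci4).2
  have hab := hA.abd i _ htBig _ hci4
  have hta : 0 < ‖t.a (c i)‖ := norm_pos_iff.2 hta0
  have hval : t.β (c i) - w * t.a (c i) =
      (rk k).a (sw.g (c i)) * (sw.a (c i) * (-w) + sw.β (c i)) + (rk k).β (sw.g (c i)) := by
    rw [p2, p3]
    simp only [Tri.comp]
    ring
  have hswy := (himg _ hciC).2
  have hb1 : ‖(rk k).β (sw.g (c i))‖ ≤ ∑ k, C * (1 + ‖(rk k).β (c (j k))‖) := by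
    refine (hA.bgr (j k) _ (hrk k) _ (h34 hswy) (c (j k)) (mem_ball_self (by norm_num))).trans ?_
    exact Finset.single_le_sum (f := fun k => C * (1 + ‖(rk k).β (c (j k))‖))
      (fun k _ => by positivity) (Finset.mem_univ k)
  have hb2 : ‖t.β (c i) - w * t.a (c i)‖ ≤ C + ∑ k, C * (1 + ‖(rk k).β (c (j k))‖) := by
    rw [hval]
    refine (norm_add_le _ _).trans (add_le_add ?_ hb1)
    rw [norm_mul]
    calc _ ≤ C * 1 := mul_le_mul (hA.abd (j k) _ (hrk k) _ (h34 hswy)).1 hswlt.le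
          (norm_nonneg _) hC0.le
      _ = C := mul_one C
  have hq : t.q (c i) - w = (t.β (c i) - w * t.a (c i)) / t.a (c i) := by
    rw [Tri.q]; field_simp
  rw [hq, norm_div, div_le_iff₀ hta]
  have h0 : 0 ≤ C + ∑ k, C * (1 + ‖(rk k).β (c (j k))‖) := by positivity
  calc _ ≤ (C + ∑ k, C * (1 + ‖(rk k).β (c (j k))‖)) * 1 := by rw [mul_one]; exact hb2
    _ ≤ (C + ∑ k, C * (1 + ‖(rk k).β (c (j k))‖)) * (C * ‖t.a (c i)‖) :=
        mul_le_mul_of_nonneg_left hab.2 h0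
    _ = _ := by ring

end Pool.Agent.Helper74.SP
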