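import Pool.Agent.Helper10.SP.GoalsI
import Pool.Agent.Helper19.Lin.IDT
import Pool.Agent.Helper74.SP.RETN
import Pool.Agent.Helper55.SP.BP

/-!
# DETC: the flat line bundle of a commutative family (packet for Helper10/SP)
-/

open Complex Metric Set Filter Topology MeasureTheory
open scoped ContDiff ComplexConjugate ComplexOrder Manifold

namespace Pool.Agent.Helper74.SP

open Pool.Agent.Helper95.Lin Pool.Agent.Helper16.Abund Pool.Agent.Helper92.Orb
open Pool.Agent.Helper10.SP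
open Pool.Agent.Helper55.SP (base_pt lc_pt pt_base_lc continuous_pt continuous_lc)

universe u v

/-- The relation between a germ and a matrix. -/
def Rl {b m : ℕ} (V : Fin m → Cn b → Cn b) (t : Tri b) (A : Matrix (Fin m) (Fin m) ℝ)
    (z' : Cn b) : Prop :=
  ∀ k, fderiv ℂ t.g z' (V k z') = ∑ l, ((A l k : ℝ) : ℂ) • V l (t.g z')

theorem continuous_base {b : ℕ} : Continuous (base (b := b) (k := 1)) :=
  continuous_pi fun i => continuous_apply _

/-- Local inverses. -/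
theorem linv {b N : ℕ} {c : Fin N → Cn b} {R : ℝ} {P : Set (Cn b) → Tri b → Prop}
    {Φ : Cn b → ℝ} {C : ℝ} (hA : AFol c R P Φ C) {U : Set (Cn b)} {t : Tri b} (ht : P U t)
    {z : Cn b} (hz : z ∈ U) : ∃ s U', P U' s ∧ t.g z ∈ U' ∧ s.g (t.g z) = z ∧
      (∀ᶠ z' in 𝓝 z, s.g (t.g z') = z') ∧ ∀ᶠ q in 𝓝 (t.g z), t.g (s.g q) = q := by
  obtain ⟨s, U', U'', hs, hy, hU''o, hzU'', -, -, heq⟩ := hA.inv U t ht z hz
  have hsz : s.g (t.g z) = z := (heq z hzU'').1
  obtain ⟨s2, U2, U2'', hs2, hy2, hU2o, hzU2, -, -, heq2⟩ := hA.inv U' s hs (t.g z) hy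
  obtain ⟨hUo, -, hgt, -, -, -⟩ := hA.holo _ _ ht
  obtain ⟨hU'o, -, hgs, -, -, -⟩ := hA.holo _ _ hs
  have hct : ContinuousAt t.g z := (hgt.differentiableAt (hUo.mem_nhds hz)).continuousAt
  have hcs : ContinuousAt s.g (t.g z) := (hgs.differentiableAt (hU'o.mem_nhds hy)).continuousAt
  have h1 : ∀ᶠ z' in 𝓝 z, s.g (t.g z') = z' := by
    filter_upwards [hU''o.mem_nhds hzU''] with z' hz' using (heq z' hz').1
  have h2 : ∀ᶠ q in 𝓝 (t.g z), s2.g (s.g q) = q := by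
    filter_upwards [hU2o.mem_nhds hzU2] with q hq using (heq2 q hq).1
  have h3 : ∀ᶠ z' in 𝓝 z, s2.g z' = t.g z' := by
    filter_upwards [h1, hct.eventually h2] with z' e1 e2
    rw [e1] at e2; exact e2
  refine ⟨s, U', hs, hy, hsz, h1, ?_⟩
  have h4 : ∀ᶠ q in 𝓝 (t.g z), s2.g (s.g q) = t.g (s.g q) := by
    have : Tendsto s.g (𝓝 (t.g z)) (𝓝 z) := by
      have := hcs.tendsto
      rwa [hsz] at this
    exact this.eventually h3
  filter_upwards [h2, h4] with q e1 e2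
  rw [← e2, e1]

/-- A real combination of the fields that vanishes near a point of the ball is trivial. -/
theorem comb0 {b N m : ℕ} {c : Fin N → Cn b} {P : Set (Cn b) → Tri b → Prop}
    {V : Fin m → Cn b → Cn b} (hV : CFam c P m V) (j : Fin N) {y : Cn b}
    (hy : y ∈ ball (c j) 3) {x : Fin m → ℝ} (h : ∀ᶠ q in 𝓝 y, ∑ l, ((x l : ℝ) : ℂ) • V l q = 0) :
    x = 0 := by
  apply hV.indep j
  have hsub : ball (c j) 3 ⊆ Bd c 3 := subset_iUnion (fun j => ball (c j) 3) j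
  have hd : DifferentiableOn ℂ (fun q => ∑ l, ((x l : ℝ) : ℂ) • V l q) (ball (c j) 3) := by
    refine DifferentiableOn.fun_sum fun l _ => ?_
    exact ((hV.holo l).mono hsub).const_smul ((x l : ℝ) : ℂ)
  exact Pool.Agent.Helper19.Lin.idt (ball (c j) 3) isOpen_ball (convex_ball _ _).isPreconnected _
    hd y hy h

/-- Uniqueness of the matrix. -/
theorem uniq {b N m : ℕ} {c : Fin N → Cn b} {R : ℝ} {P : Set (Cn b) → Tri b → Prop}
    {Φ : Cn b → ℝ} {C : ℝ} (hA : AFol c R P Φ C) {V : Fin m → Cn b → Cn b} (hV : CFam c P m V)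
    {U : Set (Cn b)} {t t' : Tri b} (ht : P U t) {z : Cn b} (hz : z ∈ U)
    (hy : t.g z ∈ Bd c 2) (hg : ∀ᶠ z' in 𝓝 z, t.g z' = t'.g z')
    {A A' : Matrix (Fin m) (Fin m) ℝ} (h : ∀ᶠ z' in 𝓝 z, Rl V t A z')
    (h' : ∀ᶠ z' in 𝓝 z, Rl V t' A' z') : A = A' := by
  obtain ⟨s, U', hs, hyU', hsz, h1, h2⟩ := linv hA ht hz
  obtain ⟨hU'o, -, hgs, -, -, -⟩ := hA.holo _ _ hs
  have hcs : Tendsto s.g (𝓝 (t.g z)) (𝓝 z) := by
    have := (hgs.differentiableAt (hU'o.mem_nhds hyU')).continuousAt.tendsto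
    rwa [hsz] at this
  obtain ⟨j, hj⟩ := mem_iUnion.1 hy
  have hj3 : t.g z ∈ ball (c j) 3 := ball_subset_ball (by norm_num) hj
  have hall : ∀ᶠ z' in 𝓝 z, ∀ k, ∑ l, (((A l k - A' l k : ℝ)) : ℂ) • V l (t.g z') = 0 := by
    filter_upwards [h, h', eventually_eventually_nhds.2 hg] with z' e1 e2 e3 k
    have e4 : fderiv ℂ t.g z' = fderiv ℂ t'.g z' := Filter.EventuallyEq.fderiv_eq e3
    have e5 := e1 k
    have e6 := e2 k
    rw [← e4, ← e3.self_of_nhds, e5] at e6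
    have e7 : ∑ l, (((A l k - A' l k : ℝ)) : ℂ) • V l (t.g z') =
        ∑ l, ((A l k : ℝ) : ℂ) • V l (t.g z') - ∑ l, ((A' l k : ℝ) : ℂ) • V l (t.g z') := by
      rw [← Finset.sum_sub_distrib]
      refine Finset.sum_congr rfl fun l _ => ?_
      rw [← sub_smul]; push_cast; rfl
    rw [e7, e6, sub_self]
  have hq : ∀ᶠ q in 𝓝 (t.g z), ∀ k, ∑ l, (((A l k - A' l k : ℝ)) : ℂ) • V l q = 0 := by
    filter_upwards [hcs.eventually hall, h2] with q e1 e2 k
    have := e1 k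
    rwa [e2] at this
  ext l k
  have := comb0 hV j hj3 (x := fun l => A l k - A' l k) (hq.mono fun q e => e k)
  have := congrFun this l
  simp only [Pi.zero_apply] at this
  linarith

/-- Quantitative independence. -/
theorem del {b N m : ℕ} {c : Fin N → Cn b} {P : Set (Cn b) → Tri b → Prop}
    {V : Fin m → Cn b → Cn b} (hV : CFam c P m V) (j : Fin N) {ρ : ℝ} (hρ : 0 < ρ) (hρ1 : ρ ≤ 1) :
    ∃ δ > 0, ∀ p ∈ closedBall (c j) 2, ∀ x : Fin m → ℝ, ‖x‖ = 1 → ∃ q ∈ ball p ρ,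
      δ ≤ ‖∑ l, ((x l : ℝ) : ℂ) • V l q‖ := by
  by_contra hcon
  push Not at hcon
  have hn : ∀ n : ℕ, ∃ p ∈ closedBall (c j) 2, ∃ x : Fin m → ℝ, ‖x‖ = 1 ∧ ∀ q ∈ ball p ρ,
      ‖∑ l, ((x l : ℝ) : ℂ) • V l q‖ < 1 / ((n : ℝ) + 1) := fun n => hcon _ (by positivity)
  choose p hp x hx hq using hn
  have hK : IsCompact (closedBall (c j) (2 : ℝ) ×ˢ sphere (0 : Fin m → ℝ) 1) :=
    (isCompact_closedBall _ _).prod (isCompact_sphere _ _)
  obtain ⟨⟨p0, x0⟩, hmem, φ, hφ, hlim⟩ := hK.tendsto_subseq (x := fun n => (p n, x n))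
    (fun n => ⟨hp n, by simp [hx n]⟩)
  have hlp : Tendsto (fun n => p (φ n)) atTop (𝓝 p0) := (Prod.tendsto_iff _ _).1 hlim |>.1
  have hlx : Tendsto (fun n => x (φ n)) atTop (𝓝 x0) := (Prod.tendsto_iff _ _).1 hlim |>.2
  have hp0 : p0 ∈ closedBall (c j) 2 := hmem.1
  have hx0 : ‖x0‖ = 1 := by simpa using hmem.2
  have hz : ∀ q ∈ ball p0 (ρ / 2), ∑ l, ((x0 l : ℝ) : ℂ) • V l q = 0 := by
    intro q hq0
    have hev : ∀ᶠ n in atTop, q ∈ ball (p (φ n)) ρ := by
      have : ∀ᶠ n in atTop, dist (p (φ n)) p0 < ρ / 2 :=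
        (Metric.tendsto_nhds.1 hlp) (ρ / 2) (by positivity)
      filter_upwards [this] with n hn
      rw [mem_ball] at hq0 ⊢
      calc dist q (p (φ n)) ≤ dist q p0 + dist p0 (p (φ n)) := dist_triangle _ _ _
        _ < ρ := by rw [dist_comm p0]; linarith
    have hl : Tendsto (fun n => ‖∑ l, ((x (φ n) l : ℝ) : ℂ) • V l q‖) atTop
        (𝓝 ‖∑ l, ((x0 l : ℝ) : ℂ) • V l q‖) := by
      refine Tendsto.norm (tendsto_finsetSum _ fun l _ => ?_)
      have h1 : Tendsto (fun n => x (φ n) l) atTop (𝓝 (x0 l)) :=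
        ((continuous_apply l).tendsto x0).comp hlx
      exact ((Complex.continuous_ofReal.tendsto _).comp h1).smul_const _
    have hl0 : Tendsto (fun n => 1 / ((φ n : ℝ) + 1)) atTop (𝓝 0) :=
      (tendsto_one_div_add_atTop_nhds_zero_nat).comp hφ.tendsto_atTop
    have hle : ‖∑ l, ((x0 l : ℝ) : ℂ) • V l q‖ ≤ 0 :=
      le_of_tendsto_of_tendsto hl hl0 (by
        filter_upwards [hev] with n hn using (hq (φ n) q hn).le)
    exact norm_le_zero_iff.1 hle
  have h0 := comb0 hV j (y := p0) (by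
    rw [mem_ball]; rw [mem_closedBall] at hp0; linarith)
    (x := x0) (by
      filter_upwards [ball_mem_nhds p0 (half_pos hρ)] with q hq0 using hz q hq0)
  rw [h0, norm_zero] at hx0
  exact zero_ne_one hx0

/-- The matrices are bounded. -/
theorem bd {b N m : ℕ} {c : Fin N → Cn b} {R : ℝ} {P : Set (Cn b) → Tri b → Prop}
    {Φ : Cn b → ℝ} {C : ℝ} (hA : AFol c R P Φ C) {V : Fin m → Cn b → Cn b} (hV : CFam c P m V) :
    ∃ B : ℝ, 0 ≤ B ∧ ∀ U t, P U t → ∀ z ∈ U, z ∈ Bd c 2 → t.g z ∈ Bd c 2 →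
      ∀ A : Matrix (Fin m) (Fin m) ℝ, (∀ᶠ z' in 𝓝 z, Rl V t A z') → ∀ l k, |A l k| ≤ B := by
  have hC : 1 ≤ C := hA.Cge
  have hC0 : 0 < C := by linarith
  have hρ : 0 < 1 / C ^ 2 := by positivity
  have hρ1 : 1 / C ^ 2 ≤ 1 := by
    rw [div_le_one (by positivity)]; nlinarith
  have hC1 : 1 / C ≤ 1 := by rw [div_le_one hC0]; exact hC
  obtain ⟨BV, hBV⟩ := hV.bdd
  choose δ hδ hδ' using fun j => del hV j hρ hρ1
  refine ⟨∑ j, C * |BV| / δ j, Finset.sum_nonneg fun j _ => ?_, ?_⟩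
  · have := hδ j; positivity
  intro U t ht z hz hzB hyB A hR l k
  obtain ⟨i, hi⟩ := mem_iUnion.1 hzB
  obtain ⟨j, hj⟩ := mem_iUnion.1 hyB
  -- extend
  obtain ⟨t', U1, ht', hU1o, hzU1, hU1U, hteq⟩ := hA.ext i z hi U t ht hz hyB
  have hyt' : t'.g z = t.g z := (hteq z hzU1).1
  have hbig : Big c P i t' := ⟨ht', z, hi, by rw [hyt']; exact hyB⟩
  have hgev : ∀ᶠ z' in 𝓝 z, t'.g z' = t.g z' := by
    filter_upwards [hU1o.mem_nhds hzU1] with z' hz' using (hteq z' hz').1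
  have hR' : ∀ᶠ z' in 𝓝 z, Rl V t' A z' := by
    filter_upwards [hR, eventually_eventually_nhds.2 hgev] with z' e1 e2 k
    have e3 : fderiv ℂ t'.g z' = fderiv ℂ t.g z' := Filter.EventuallyEq.fderiv_eq e2
    rw [e3, e2.self_of_nhds]
    exact e1 k
  have hi4 : z ∈ ball (c i) 4 := ball_subset_ball (by norm_num) hi
  have hj4 : t'.g z ∈ ball (c j) 4 := by rw [hyt']; exact ball_subset_ball (by norm_num) hj
  obtain ⟨s, U', hs, hyU', hsz, -, h2⟩ := linv hA ht' hi4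
  obtain ⟨s', U2, hs', hU2o, hyU2, -, hseq⟩ := hA.ext j (t'.g z) (by rw [hyt']; exact hj) U' s hs
    hyU' (by rw [hsz]; exact hzB)
  have hs'y : s'.g (t'.g z) = z := by rw [(hseq _ hyU2).1, hsz]
  have hbigs : Big c P j s' := ⟨hs', t'.g z, by rw [hyt']; exact hj, by rw [hs'y]; exact hzB⟩
  set y : Cn b := t'.g z with hydef
  obtain ⟨-, -, hgt, -, -, -⟩ := hA.holo _ _ ht'
  obtain ⟨-, -, hgs, -, -, -⟩ := hA.holo _ _ hs'
  have hj2 : y ∈ ball (c j) 2 := by rw [hyt']; exact hj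
  -- balls
  have sub1 : ball y (1 / C ^ 2) ⊆ ball (c j) 3 := by
    refine ball_subset_ball' ?_
    rw [mem_ball] at hj2; linarith
  have sub2 : ball z (1 / C) ⊆ ball (c i) 3 := by
    refine ball_subset_ball' ?_
    rw [mem_ball] at hi; linarith
  have s34 : ∀ i, ball (c i) 3 ⊆ ball (c i) (4 : ℝ) := fun i => ball_subset_ball (by norm_num)
  have s3B : ∀ i, ball (c i) 3 ⊆ Bd c 3 := fun i => subset_iUnion (fun j => ball (c j) 3) i
  have map1 : MapsTo s'.g (ball y (1 / C ^ 2)) (ball z (1 / C)) := by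
    intro q hq
    have h3 := hA.lip j _ hbigs q (s34 j (sub1 hq)) y hj4
    rw [hs'y] at h3
    rw [mem_ball, dist_eq_norm] at hq ⊢
    calc ‖s'.g q - z‖ ≤ C * ‖q - y‖ := h3
      _ < C * (1 / C ^ 2) := mul_lt_mul_of_pos_left hq hC0
      _ = 1 / C := by field_simp
  have map2 : MapsTo t'.g (ball z (1 / C)) (ball (c j) 3) := by
    intro z' hz'
    have h3 := hA.lip i _ hbig z' (s34 i (sub2 hz')) z hi4
    rw [mem_ball, dist_eq_norm] at hz' hj2 ⊢
    have h4 : C * ‖z' - z‖ < 1 := by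
      have := mul_lt_mul_of_pos_left hz' hC0
      rwa [mul_one_div_cancel hC0.ne'] at this
    calc ‖t'.g z' - c j‖ = ‖(t'.g z' - y) + (y - c j)‖ := by congr 1; abel
      _ ≤ ‖t'.g z' - y‖ + ‖y - c j‖ := norm_add_le _ _
      _ < 3 := by linarith
  -- the inverse relation on the ball about y
  have hid : ∀ q ∈ ball y (1 / C ^ 2), t'.g (s'.g q) = q := by
    have hd : DifferentiableOn ℂ (fun q => t'.g (s'.g q) - q) (ball y (1 / C ^ 2)) :=
      ((hgt.mono (sub2.trans (s34 i))).comp (hgs.mono (sub1.trans (s34 j))) map1).sub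
        differentiableOn_id
    intro q hq
    refine sub_eq_zero.1 (idB hd ?_ q hq)
    filter_upwards [h2, hU2o.mem_nhds hyU2] with q e1 e2
    rw [(hseq q e2).1, e1, sub_self]
  -- the relation on the ball about z
  have hrel : ∀ z' ∈ ball z (1 / C), fderiv ℂ t'.g z' (V k z') =
      ∑ l, ((A l k : ℝ) : ℂ) • V l (t'.g z') := by
    have hd1 : DifferentiableOn ℂ (fun z' => fderiv ℂ t'.g z' (V k z')) (ball z (1 / C)) :=
      ((holo_fderiv isOpen_ball hgt).mono (sub2.trans (s34 i))).clm_apply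
        ((hV.holo k).mono (sub2.trans (s3B i)))
    have hd2 : DifferentiableOn ℂ (fun z' => ∑ l, ((A l k : ℝ) : ℂ) • V l (t'.g z'))
        (ball z (1 / C)) := by
      refine DifferentiableOn.fun_sum fun l _ => ?_
      have : DifferentiableOn ℂ (fun z' => V l (t'.g z')) (ball z (1 / C)) :=
        ((hV.holo l).mono (s3B j)).comp (hgt.mono (sub2.trans (s34 i))) map2
      exact this.const_smul ((A l k : ℝ) : ℂ)
    intro z' hz'
    refine sub_eq_zero.1 (idB (hd1.sub hd2) ?_ z' hz')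
    filter_upwards [hR'] with z' e1
    have e9 := e1 k
    simp only [Pi.sub_apply]
    rw [e9, sub_self]
  -- conclusion
  set x : Fin m → ℝ := fun l => A l k with hx
  have hxl : |A l k| ≤ ‖x‖ := by
    have := norm_le_pi_norm x l
    rwa [Real.norm_eq_abs] at this
  refine hxl.trans ?_
  have hsum : C * |BV| / δ j ≤ ∑ j, C * |BV| / δ j :=
    Finset.single_le_sum (f := fun j => C * |BV| / δ j)
      (fun j _ => by have := hδ j; positivity) (Finset.mem_univ j)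
  refine le_trans ?_ hsum
  by_cases hx0 : x = 0
  · rw [hx0, norm_zero]; have := hδ j; positivity
  have hxn : 0 < ‖x‖ := norm_pos_iff.2 hx0
  obtain ⟨q, hq, hq2⟩ := hδ' j y (ball_subset_closedBall hj2) (‖x‖⁻¹ • x) (by
    rw [norm_smul, norm_inv, norm_norm, inv_mul_cancel₀ hxn.ne'])
  have e1 : ∑ l, (((‖x‖⁻¹ • x) l : ℝ) : ℂ) • V l q =
      ((‖x‖⁻¹ : ℝ) : ℂ) • ∑ l, ((A l k : ℝ) : ℂ) • V l q := by
    rw [Finset.smul_sum]
    refine Finset.sum_congr rfl fun l _ => ?_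
    rw [Pi.smul_apply, smul_eq_mul, smul_smul]
    push_cast
    rfl
  have hz' := map1 hq
  have e2 : ∑ l, ((A l k : ℝ) : ℂ) • V l q = fderiv ℂ t'.g (s'.g q) (V k (s'.g q)) := by
    rw [hrel _ hz', hid q hq]
  have e3 : ‖fderiv ℂ t'.g (s'.g q)‖ ≤ C := by
    apply norm_fderiv_le_of_lip' ℂ hC0.le
    filter_upwards [isOpen_ball.mem_nhds (s34 i (sub2 hz'))] with w hw
    exact hA.lip i _ hbig w hw _ (s34 i (sub2 hz'))
  have e4 : ‖fderiv ℂ t'.g (s'.g q) (V k (s'.g q))‖ ≤ C * |BV| :=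
    ((fderiv ℂ t'.g (s'.g q)).le_opNorm _).trans (mul_le_mul e3
      ((hBV k _ (s3B i (sub2 hz'))).trans (le_abs_self _)) (norm_nonneg _) hC0.le)
  rw [e1, norm_smul, e2, Complex.norm_real, norm_inv, norm_norm] at hq2
  have e5 : δ j ≤ ‖x‖⁻¹ * (C * |BV|) := hq2.trans (mul_le_mul_of_nonneg_left e4 (by positivity))
  rw [le_div_iff₀ (hδ j)]
  calc ‖x‖ * δ j ≤ ‖x‖ * (‖x‖⁻¹ * (C * |BV|)) := mul_le_mul_of_nonneg_left e5 hxn.le
    _ = C * |BV| := by field_simp

/-! ## The matrix of an arrow -/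

/-- `A` is the matrix of the arrow `(γ, x, y)`. -/
def IsA {b N m : ℕ} {G : Type u} (c : Fin N → Cn b) (Rel : G → Cn (b + 1) → Cn (b + 1) → Prop)
    (P : Set (Cn b) → Tri b → Prop) (V : Fin m → Cn b → Cn b) (γ : G) (x y : Cn (b + 1))
    (A : Matrix (Fin m) (Fin m) ℝ) : Prop :=
  ∃ U t, P U t ∧ base x ∈ U ∧ U ⊆ Bd c 2 ∧ MapsTo t.g U (Bd c 2) ∧
    y = pt (t.g (base x)) (t.a (base x) * lc x + t.β (base x)) ∧
    (∀ z ∈ U, ∀ w, Rel γ (pt z w) (pt (t.g z) (t.a z * w + t.β z))) ∧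
    ∀ᶠ z' in 𝓝 (base x), Rl V t A z'

section arrows

variable {b N m : ℕ} {G : Type u} [Group G] {c : Fin N → Cn b} {R : ℝ}
  {Rel : G → Cn (b + 1) → Cn (b + 1) → Prop} {P : Set (Cn b) → Tri b → Prop} {Φ : Cn b → ℝ}
  {C : ℝ} {H : Cn (b + 1) → Matrix (Fin (b + 1)) (Fin (b + 1)) ℂ} {V : Fin m → Cn b → Cn b}

theorem contAct (hA : AFol c R P Φ C) {U : Set (Cn b)} {t : Tri b} (ht : P U t)
    {x : Cn (b + 1)} (hx : base x ∈ U) :
    ContinuousAt (fun x' : Cn (b + 1) => pt (t.g (base x')) (t.a (base x') * lc x' + t.β (base x')))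
      x := by
  obtain ⟨hUo, -, hg, ha, hb, -⟩ := hA.holo _ _ ht
  have hU := hUo.mem_nhds hx
  have cb : ContinuousAt (base (b := b) (k := 1)) x := continuous_base.continuousAt
  have c1 : ContinuousAt (fun x' : Cn (b + 1) => t.g (base x')) x :=
    ContinuousAt.comp (f := base (b := b) (k := 1)) (g := t.g) (hg.differentiableAt hU).continuousAt
      cb
  have c2 : ContinuousAt (fun x' : Cn (b + 1) => t.a (base x')) x :=
    ContinuousAt.comp (f := base (b := b) (k := 1)) (g := t.a) (ha.differentiableAt hU).continuousAt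
      cb
  have c3 : ContinuousAt (fun x' : Cn (b + 1) => t.β (base x')) x :=
    ContinuousAt.comp (f := base (b := b) (k := 1)) (g := t.β) (hb.differentiableAt hU).continuousAt
      cb
  have c4 : ContinuousAt (fun x' : Cn (b + 1) => (t.g (base x'), t.a (base x') * lc x' +
      t.β (base x'))) x := c1.prodMk ((c2.mul continuous_lc.continuousAt).add c3)
  exact ContinuousAt.comp (f := fun x' : Cn (b + 1) => (t.g (base x'), t.a (base x') * lc x' +
      t.β (base x'))) (g := fun p : Cn b × ℂ => pt p.1 p.2) continuous_pt.continuousAt c4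

/-- Near `x` the arrows of `γ` to points near `y` are given by `t`. -/
theorem arr_loc (hF : FEt c R Rel P Φ C H) {U : Set (Cn b)} {t : Tri b} (ht : P U t) {γ : G}
    {x : Cn (b + 1)} (hx : base x ∈ U)
    (hR : ∀ z ∈ U, ∀ w, Rel γ (pt z w) (pt (t.g z) (t.a z * w + t.β z))) :
    ∃ O ∈ 𝓝 x, ∃ W ∈ 𝓝 (pt (t.g (base x)) (t.a (base x) * lc x + t.β (base x))),
      ∀ x' ∈ O, ∀ y' ∈ W, Rel γ x' y' → base x' ∈ U ∧
        y' = pt (t.g (base x')) (t.a (base x') * lc x' + t.β (base x')) := by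
  have h0 := hR (base x) hx (lc x)
  rw [pt_base_lc] at h0
  obtain ⟨τ, O, W, hOo, hWo, hxO, hyW, -, -, -, -, -, -, hiff⟩ := hF.ket.et.loc γ _ _ h0
  obtain ⟨hUo, -, -, -, -, -⟩ := hF.fol.holo _ _ ht
  have hc := contAct hF.fol ht hx
  refine ⟨O ∩ (base ⁻¹' U ∩ (fun x' : Cn (b + 1) => pt (t.g (base x'))
    (t.a (base x') * lc x' + t.β (base x'))) ⁻¹' W), ?_, W, hWo.mem_nhds hyW, ?_⟩
  · refine inter_mem (hOo.mem_nhds hxO) (inter_mem ?_ (hc.preimage_mem_nhds (hWo.mem_nhds hyW)))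
    exact continuous_base.continuousAt.preimage_mem_nhds (hUo.mem_nhds hx)
  · rintro x' ⟨h1, h2, h3⟩ y' hy' hRel
    refine ⟨h2, ?_⟩
    have e1 := (hiff x' h1 y' hy').1 hRel
    have e2 := hR (base x') h2 (lc x')
    rw [pt_base_lc] at e2
    have e3 := (hiff x' h1 _ h3).1 e2
    exact e1.trans e3.symm

theorem isA_unique (hF : FEt c R Rel P Φ C H) (hV : CFam c P m V) {γ : G} {x y : Cn (b + 1)}
    {A A' : Matrix (Fin m) (Fin m) ℝ} (h : IsA c Rel P V γ x y A) (h' : IsA c Rel P V γ x y A') :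
    A = A' := by
  obtain ⟨U, t, ht, hxU, hU2, hmap, hy, hR, hrel⟩ := h
  obtain ⟨U', t', ht', hxU', hU2', hmap', hy', hR', hrel'⟩ := h'
  obtain ⟨O, hO, W, hW, hloc⟩ := arr_loc hF ht hxU hR
  have hc' := contAct hF.fol ht' hxU'
  obtain ⟨hUo', -, -, -, -, -⟩ := hF.fol.holo _ _ ht'
  have hcp : ContinuousAt (fun z' : Cn b => pt z' (lc x)) (base x) :=
    (continuous_pt.comp (continuous_id.prodMk continuous_const)).continuousAt
  have hcpx : pt (base x) (lc x) = x := pt_base_lc x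
  have ht1 : Tendsto (fun z' : Cn b => pt z' (lc x)) (𝓝 (base x)) (𝓝 x) := by
    have := hcp.tendsto
    rwa [hcpx] at this
  have hW' : ∀ᶠ x' in 𝓝 x, pt (t'.g (base x')) (t'.a (base x') * lc x' + t'.β (base x')) ∈ W := by
    apply hc'.preimage_mem_nhds
    rw [← hy', hy]
    exact hW
  have hg : ∀ᶠ z' in 𝓝 (base x), t.g z' = t'.g z' := by
    filter_upwards [ht1.eventually hO, ht1.eventually hW', hUo'.mem_nhds hxU'] with z' e1 e2 e3
    have e4 : Rel γ (pt z' (lc x)) (pt (t'.g z') (t'.a z' * lc x + t'.β z')) := hR' z' e3 (lc x)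
    rw [base_pt, lc_pt] at e2
    have e5 := (hloc _ e1 _ e2 e4).2
    rw [base_pt, lc_pt] at e5
    have e6 := congrArg base e5
    rw [base_pt, base_pt] at e6
    exact e6.symm
  exact uniq hF.fol hV ht hxU (hmap hxU) hg hrel hrel'

theorem isA_exists (hF : FEt c R Rel P Φ C H) (hV : CFam c P m V) {γ : G} {x y : Cn (b + 1)}
    (h : Rel γ x y) : ∃ A, IsA c Rel P V γ x y A ∧ A.det ≠ 0 := by
  obtain ⟨U, t, ht, hxU, hU2, hmap, hy, hR⟩ := hF.toP γ x y h
  obtain ⟨A, U', hdet, hU'o, hxU', -, hrel⟩ := hV.trans U t ht (base x) hxU (hU2 hxU) (hmap hxU)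
  refine ⟨A, ⟨U, t, ht, hxU, hU2, hmap, hy, hR, ?_⟩, hdet⟩
  filter_upwards [hU'o.mem_nhds hxU'] with z' hz' using hrel z' hz'

theorem isA_det (hF : FEt c R Rel P Φ C H) (hV : CFam c P m V) {γ : G} {x y : Cn (b + 1)}
    (h : Rel γ x y) {A : Matrix (Fin m) (Fin m) ℝ} (hA : IsA c Rel P V γ x y A) : A.det ≠ 0 := by
  obtain ⟨A', hA', hd⟩ := isA_exists hF hV h
  rw [isA_unique hF hV hA hA']
  exact hd

theorem isA_mul (hF : FEt c R Rel P Φ C H) {γ γ' : G} {x y z : Cn (b + 1)}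
    {A A' : Matrix (Fin m) (Fin m) ℝ} (h : IsA c Rel P V γ x y A) (h' : IsA c Rel P V γ' y z A') :
    IsA c Rel P V (γ' * γ) x z (A' * A) := by
  obtain ⟨U, t, ht, hxU, hU2, hmap, hy, hR, hrel⟩ := h
  obtain ⟨U', t', ht', hyU', hU2', hmap', hz, hR', hrel'⟩ := h'
  obtain ⟨hUo, -, hgt, hat, hbt, -⟩ := hF.fol.holo _ _ ht
  obtain ⟨hUo', -, hgt', hat', hbt', -⟩ := hF.fol.holo _ _ ht'
  have hby : base y = t.g (base x) := by rw [hy, base_pt]
  have hly : lc y = t.a (base x) * lc x + t.β (base x) := by rw [hy, lc_pt]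
  rw [hby] at hyU' hz hrel'
  rw [hly] at hz
  have hU''o : IsOpen (U ∩ t.g ⁻¹' U') := hgt.continuousOn.isOpen_inter_preimage hUo hUo'
  have hct : ContinuousAt t.g (base x) := (hgt.differentiableAt (hUo.mem_nhds hxU)).continuousAt
  refine ⟨U ∩ t.g ⁻¹' U', t'.comp t, hF.fol.comp _ _ _ _ _ ht' ht hU''o inter_subset_left
    (fun z hz => hz.2), ⟨hxU, hyU'⟩, inter_subset_left.trans hU2, fun z hz => hmap' hz.2, ?_, ?_, ?_⟩
  · rw [hz]
    simp only [Tri.comp]
    congr 1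
    ring
  · rintro z' ⟨hz1, hz2⟩ w
    have e1 := hR z' hz1 w
    have e2 := hR' (t.g z') hz2 (t.a z' * w + t.β z')
    have e3 := hF.ket.et.mul _ _ _ _ _ e1 e2
    have e4 : t'.a (t.g z') * (t.a z' * w + t.β z') + t'.β (t.g z') =
        (t'.comp t).a z' * w + (t'.comp t).β z' := by
      simp only [Tri.comp]; ring
    rw [e4] at e3
    exact e3
  · filter_upwards [hrel, hct.eventually hrel', hUo.mem_nhds hxU,
      hct.preimage_mem_nhds (hUo'.mem_nhds hyU')] with z' e1 e2 e3 e4 k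
    have d1 : DifferentiableAt ℂ t.g z' := hgt.differentiableAt (hUo.mem_nhds e3)
    have d2 : DifferentiableAt ℂ t'.g (t.g z') := hgt'.differentiableAt (hUo'.mem_nhds e4)
    have e5 : fderiv ℂ (t'.comp t).g z' = (fderiv ℂ t'.g (t.g z')).comp (fderiv ℂ t.g z') :=
      fderiv_comp z' d2 d1
    rw [e5, ContinuousLinearMap.comp_apply, e1 k, map_sum]
    have e6 : ∀ l, (fderiv ℂ t'.g (t.g z')) (((A l k : ℝ) : ℂ) • V l (t.g z')) =
        ∑ p, (((A l k : ℝ) : ℂ) * ((A' p l : ℝ) : ℂ)) • V p (t'.g (t.g z')) := by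
      intro l
      rw [map_smul, e2 l, Finset.smul_sum]
      exact Finset.sum_congr rfl fun p _ => smul_smul _ _ _
    rw [Finset.sum_congr rfl fun l _ => e6 l, Finset.sum_comm]
    refine Finset.sum_congr rfl fun p _ => ?_
    rw [← Finset.sum_smul, Matrix.mul_apply]
    push_cast
    congr 1
    exact Finset.sum_congr rfl fun l _ => mul_comm _ _

theorem isA_one (hF : FEt c R Rel P Φ C H) {x : Cn (b + 1)} (hx : x ∈ tubeS (Bd c 2)) :
    IsA c Rel P V (1 : G) x x 1 := by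
  have hR2 : (2 : ℝ) ≤ R := by
    have := hF.fol.Rge; have := hF.fol.Cge; linarith
  have hopen : IsOpen (Bd c 2) := isOpen_iUnion fun _ => isOpen_ball
  refine ⟨Bd c 2, Tri.one, hF.fol.one _ hopen (iUnion_mono fun _ => ball_subset_ball hR2), hx,
    subset_rfl, fun z hz => hz, ?_, ?_, ?_⟩
  · simp only [Tri.one, id, one_mul, add_zero]
    exact (pt_base_lc x).symm
  · intro z hz w
    simp only [Tri.one, id, one_mul, add_zero]
    refine hF.ket.et.one _ ?_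
    change base (pt z w) ∈ Bd c 2
    rw [base_pt]; exact hz
  · refine Eventually.of_forall fun z' k => ?_
    have e1 : fderiv ℂ (Tri.one : Tri b).g z' = ContinuousLinearMap.id ℂ (Cn b) := fderiv_id
    rw [e1, ContinuousLinearMap.id_apply, Finset.sum_eq_single k]
    · simp [Tri.one]
    · intro l _ hl
      rw [Matrix.one_apply_ne hl]; simp
    · intro h; exact absurd (Finset.mem_univ k) h

end arrows

theorem detc (hHODC : S_HODC.{u}) : S_DETC.{u} := by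
  intro b N G _ c R Rel P Φ C H hF m V hV
  classical
  obtain ⟨B, hB0, hB⟩ := bd hF.fol hV
  -- the cocycle
  set cc : G → Cn (b + 1) → Cn (b + 1) → ℝ := fun γ x y =>
    if h : ∃ A, IsA c Rel P V γ x y A then - Real.log |(Classical.choose h).det| else 0 with hcc
  have hccA : ∀ γ x y A, IsA c Rel P V γ x y A → cc γ x y = - Real.log |A.det| := by
    intro γ x y A hA
    have h : ∃ A, IsA c Rel P V γ x y A := ⟨A, hA⟩
    simp only [hcc]
    rw [dif_pos h, isA_unique hF hV (Classical.choose_spec h) hA]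
  have hmul : ∀ γ γ' x y z, Rel γ x y → Rel γ' y z →
      cc (γ' * γ) x z = cc γ x y + cc γ' y z := by
    intro γ γ' x y z h h'
    obtain ⟨A, hA, hd⟩ := isA_exists hF hV h
    obtain ⟨A', hA', hd'⟩ := isA_exists hF hV h'
    rw [hccA _ _ _ _ hA, hccA _ _ _ _ hA', hccA _ _ _ _ (isA_mul hF hA hA'), Matrix.det_mul,
      abs_mul, Real.log_mul (abs_ne_zero.2 hd') (abs_ne_zero.2 hd)]
    ring
  set D0 : ℝ := m.factorial • B ^ m + 1 with hD0
  have hD01 : 1 ≤ D0 := by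
    have : 0 ≤ m.factorial • B ^ m := by positivity
    linarith
  have hlow : ∀ γ x y, Rel γ x y → - Real.log D0 ≤ cc γ x y := by
    intro γ x y h
    obtain ⟨A, hA, hd⟩ := isA_exists hF hV h
    rw [hccA _ _ _ _ hA]
    apply neg_le_neg
    obtain ⟨U, t, ht, hxU, hU2, hmap, hy, hR, hrel⟩ := hA
    have hent := hB U t ht (base x) hxU (hU2 hxU) (hmap hxU) A hrel
    have hdet : |A.det| ≤ m.factorial • B ^ m := by
      have := Matrix.det_le (A := A) (abv := AbsoluteValue.abs) (x := B) (fun l k => hent l k)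
      simpa using this
    exact Real.log_le_log (abs_pos.2 hd) (by linarith)
  have hcoc : Coc Rel cc := by
    refine ⟨⟨Real.log D0, ?_⟩, hmul, ?_⟩
    · intro γ x y h
      have hinv := hF.ket.et.inv γ x y h
      have h1 := hlow γ x y h
      have h2 := hlow γ⁻¹ y x hinv
      have h3 := hmul γ γ⁻¹ x y x h hinv
      rw [inv_mul_cancel, hccA _ _ _ _ (isA_one (V := V) hF (hF.ket.et.mem γ x y h).1),
        Matrix.det_one, abs_one, Real.log_one, neg_zero] at h3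
      rw [abs_le]
      constructor <;> linarith
    · intro γ x y h
      obtain ⟨A, hA, hd⟩ := isA_exists hF hV h
      have hval := hccA _ _ _ _ hA
      obtain ⟨U, t, ht, hxU, hU2, hmap, hy, hR, hrel⟩ := hA
      obtain ⟨O, hO, W, hW, hloc⟩ := arr_loc hF ht hxU hR
      rw [← hy] at hW
      have hO2 : ∀ᶠ x' in 𝓝 x, ∀ᶠ z' in 𝓝 (base x'), Rl V t A z' :=
        continuous_base.continuousAt.eventually (eventually_eventually_nhds.2 hrel)
      refine ⟨O ∩ {x' | ∀ᶠ z' in 𝓝 (base x'), Rl V t A z'}, inter_mem hO hO2, W, hW, ?_⟩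
      rintro x' ⟨hx1, hx2⟩ y' hy' hRel
      obtain ⟨e1, e2⟩ := hloc x' hx1 y' hy' hRel
      rw [hval]
      exact hccA _ _ _ _ ⟨U, t, ht, e1, hU2, hmap, e2, hR, hx2⟩
  obtain ⟨u, hu1, hu2, hu3⟩ := hHODC c R Rel P Φ C H hF cc hcoc
  refine ⟨u, hu1, hu2, ?_⟩
  rintro U t ⟨ht, hU2, hmap⟩ z hz A hrel
  obtain ⟨γ, hγ⟩ := hF.ofP U t ht hU2 hmap
  have hRel := hγ z hz 0
  have hA : IsA c Rel P V γ (pt z 0) (pt (t.g z) (t.a z * 0 + t.β z)) A := by
    refine ⟨U, t, ht, ?_, hU2, hmap, ?_, hγ, ?_⟩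
    · rw [base_pt]; exact hz
    · rw [base_pt, lc_pt]
    · rw [base_pt]; exact hrel
  refine ⟨isA_det hF hV hRel hA, ?_⟩
  have h4 := hu3 γ _ _ hRel
  rw [base_pt, base_pt, hccA _ _ _ _ hA] at h4
  exact h4

end Pool.Agent.Helper74.SP
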