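import Pool.Agent.Helper10.SP.GoalsT

/-!
# POIL: the local Poincaré inequality (packet for Helper10/SP)
-/

open Complex Metric Set Filter Topology MeasureTheory
open scoped ContDiff ComplexConjugate

namespace Pool.Agent.Helper74.SP

open Pool.Agent.Helper95.Lin Pool.Agent.Helper10.SP

/-- The point at parameter `t`. -/
theorem gam_mem {n : ℕ} {x₀ : Cn n} {r : ℝ} {x y : Cn n} (hx : x ∈ closedBall x₀ r)
    (hy : y ∈ closedBall x₀ r) {t : ℝ} (ht : t ∈ Icc (1 / 2 : ℝ) 1) :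
    t • x + (1 - t) • y ∈ closedBall x₀ r :=
  convex_closedBall x₀ r hx hy (by linarith [ht.1]) (by linarith [ht.2]) (by ring)

theorem gam_mem' {n : ℕ} {x₀ : Cn n} {r : ℝ} {x y : Cn n} (hx : x ∈ ball x₀ r)
    (hy : y ∈ ball x₀ r) {t : ℝ} (ht : t ∈ Icc (1 / 2 : ℝ) 1) :
    t • x + (1 - t) • y ∈ ball x₀ r :=
  convex_ball x₀ r hx hy (by linarith [ht.1]) (by linarith [ht.2]) (by ring)

/-- The pointwise inequality. -/
theorem ptw {n : ℕ} {x₀ : Cn n} {r : ℝ} (hr : 0 < r) {f : Cn n → ℝ} {U : Set (Cn n)}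
    (hU : IsOpen U) (hB : closedBall x₀ r ⊆ U) (hf : ContDiffOn ℝ ∞ f U) {x y : Cn n}
    (hx : x ∈ closedBall x₀ r) (hy : y ∈ closedBall x₀ r) :
    (f x - f ((1 / 2 : ℝ) • x + (1 / 2 : ℝ) • y)) ^ 2 ≤
      2 * r ^ 2 * ∫ t in Icc (1 / 2 : ℝ) 1, ‖fderiv ℝ f (t • x + (1 - t) • y)‖ ^ 2 := by
  have hcf : ContinuousOn (fderiv ℝ f) U := hf.continuousOn_fderiv_of_isOpen hU (by simp)
  have hline : ∀ t : ℝ, HasDerivAt (fun t : ℝ => t • x + (1 - t) • y) (x - y) t := by
    intro t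
    have h1 : HasDerivAt (fun t : ℝ => t • x) ((1 : ℝ) • x) t := (hasDerivAt_id t).smul_const x
    have h2 : HasDerivAt (fun t : ℝ => (1 - t) • y) ((-1 : ℝ) • y) t :=
      ((hasDerivAt_id t).const_sub 1).smul_const y
    have e : x - y = (1 : ℝ) • x + (-1 : ℝ) • y := by
      rw [one_smul, neg_one_smul]; abel
    rw [e]
    exact h1.add h2
  have hlc : Continuous (fun t : ℝ => t • x + (1 - t) • y) := by fun_prop
  have hmaps : MapsTo (fun t : ℝ => t • x + (1 - t) • y) (Icc (1 / 2 : ℝ) 1) U :=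
    fun t ht => hB (gam_mem hx hy ht)
  have hcD : ContinuousOn (fun t : ℝ => fderiv ℝ f (t • x + (1 - t) • y)) (Icc (1 / 2 : ℝ) 1) :=
    hcf.comp hlc.continuousOn hmaps
  have hcφ : ContinuousOn (fun t : ℝ => fderiv ℝ f (t • x + (1 - t) • y) (x - y))
      (Icc (1 / 2 : ℝ) 1) := hcD.clm_apply continuousOn_const
  have h12 : (1 / 2 : ℝ) ≤ 1 := by norm_num
  have hder : ∀ t ∈ uIcc (1 / 2 : ℝ) 1, HasDerivAt (fun t : ℝ => f (t • x + (1 - t) • y))
      (fderiv ℝ f (t • x + (1 - t) • y) (x - y)) t := by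
    intro t ht
    rw [uIcc_of_le h12] at ht
    have hd : DifferentiableAt ℝ f (t • x + (1 - t) • y) :=
      (hf.differentiableOn (by simp)).differentiableAt (hU.mem_nhds (hmaps ht))
    exact hd.hasFDerivAt.comp_hasDerivAt t (hline t)
  have hII : IntervalIntegrable (fun t : ℝ => fderiv ℝ f (t • x + (1 - t) • y) (x - y)) volume
      (1 / 2 : ℝ) 1 := by
    apply ContinuousOn.intervalIntegrable
    rwa [uIcc_of_le h12]
  have hftc := intervalIntegral.integral_eq_sub_of_hasDerivAt hder hII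
  set a : ℝ := f x - f ((1 / 2 : ℝ) • x + (1 / 2 : ℝ) • y) with ha
  have ha' : ∫ t in (1 / 2 : ℝ)..1, fderiv ℝ f (t • x + (1 - t) • y) (x - y) = a := by
    rw [hftc, ha]
    norm_num
  have hII2 : IntervalIntegrable (fun t : ℝ => (fderiv ℝ f (t • x + (1 - t) • y) (x - y)) ^ 2)
      volume (1 / 2 : ℝ) 1 := by
    apply ContinuousOn.intervalIntegrable
    rw [uIcc_of_le h12]
    exact hcφ.pow 2
  have hsq : 0 ≤ ∫ t in (1 / 2 : ℝ)..1,
      ((fderiv ℝ f (t • x + (1 - t) • y) (x - y)) - 2 * a) ^ 2 :=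
    intervalIntegral.integral_nonneg h12 fun t _ => sq_nonneg _
  have hexp : ∫ t in (1 / 2 : ℝ)..1, ((fderiv ℝ f (t • x + (1 - t) • y) (x - y)) - 2 * a) ^ 2 =
      (∫ t in (1 / 2 : ℝ)..1, (fderiv ℝ f (t • x + (1 - t) • y) (x - y)) ^ 2) - 2 * a ^ 2 := by
    have e1 : (fun t : ℝ => ((fderiv ℝ f (t • x + (1 - t) • y) (x - y)) - 2 * a) ^ 2) =
        fun t => ((fderiv ℝ f (t • x + (1 - t) • y) (x - y)) ^ 2 -
          4 * a * (fderiv ℝ f (t • x + (1 - t) • y) (x - y))) + 4 * a ^ 2 := by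
      funext t; ring
    rw [e1, intervalIntegral.integral_add (hII2.sub (hII.const_mul _)) (by simp),
      intervalIntegral.integral_sub hII2 (hII.const_mul _),
      intervalIntegral.integral_const_mul, ha']
    simp
    ring
  have hmain : 2 * a ^ 2 ≤ ∫ t in (1 / 2 : ℝ)..1,
      (fderiv ℝ f (t • x + (1 - t) • y) (x - y)) ^ 2 := by
    rw [hexp] at hsq; linarith
  have hxy : ‖x - y‖ ≤ 2 * r := by
    rw [mem_closedBall, dist_eq_norm] at hx hy
    calc ‖x - y‖ = ‖(x - x₀) - (y - x₀)‖ := by congr 1; abel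
      _ ≤ ‖x - x₀‖ + ‖y - x₀‖ := norm_sub_le _ _
      _ ≤ 2 * r := by linarith
  have hII3 : IntervalIntegrable (fun t : ℝ => 4 * r ^ 2 * ‖fderiv ℝ f (t • x + (1 - t) • y)‖ ^ 2)
      volume (1 / 2 : ℝ) 1 := by
    apply ContinuousOn.intervalIntegrable
    rw [uIcc_of_le h12]
    exact continuousOn_const.mul (hcD.norm.pow 2)
  have hle : ∫ t in (1 / 2 : ℝ)..1, (fderiv ℝ f (t • x + (1 - t) • y) (x - y)) ^ 2 ≤
      ∫ t in (1 / 2 : ℝ)..1, 4 * r ^ 2 * ‖fderiv ℝ f (t • x + (1 - t) • y)‖ ^ 2 := by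
    apply intervalIntegral.integral_mono_on h12 hII2 hII3
    intro t _
    have h5 := (fderiv ℝ f (t • x + (1 - t) • y)).le_opNorm (x - y)
    rw [Real.norm_eq_abs] at h5
    rw [← sq_abs]
    calc |(fderiv ℝ f (t • x + (1 - t) • y)) (x - y)| ^ 2 ≤
          (‖fderiv ℝ f (t • x + (1 - t) • y)‖ * ‖x - y‖) ^ 2 := by gcongr
      _ ≤ (‖fderiv ℝ f (t • x + (1 - t) • y)‖ * (2 * r)) ^ 2 := by gcongr
      _ = _ := by ring
  rw [intervalIntegral.integral_const_mul] at hle
  rw [integral_Icc_eq_integral_Ioc, ← intervalIntegral.integral_of_le h12]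
  nlinarith

/-- Scaling. -/
theorem scal {n : ℕ} {x₀ : Cn n} {r : ℝ} {g : Cn n → ℝ} (hg : IntegrableOn g (ball x₀ r))
    (hg0 : ∀ x, 0 ≤ g x) {y : Cn n} (hy : y ∈ ball x₀ r) {t : ℝ} (ht : t ∈ Icc (1 / 2 : ℝ) 1) :
    ∫ x in ball x₀ r, g (t • x + (1 - t) • y) ≤
      2 ^ (Module.finrank ℝ (Cn n)) * ∫ x in ball x₀ r, g x := by
  have ht0 : 0 < t := by linarith [ht.1]
  set h : Cn n → ℝ := (ball x₀ r).indicator g with hh
  have hhi : Integrable h := hg.integrable_indicator measurableSet_ball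
  have hh0 : ∀ x, 0 ≤ h x := fun x => indicator_nonneg (fun x _ => hg0 x) x
  have h1 : ∫ x in ball x₀ r, g (t • x + (1 - t) • y) =
      ∫ x in ball x₀ r, h (t • x + (1 - t) • y) := by
    apply setIntegral_congr_fun measurableSet_ball
    intro x hx
    rw [hh]
    exact (indicator_of_mem (gam_mem' hx hy ht) g).symm
  have hint : Integrable (fun x : Cn n => h (t • x + (1 - t) • y)) :=
    (hhi.comp_add_right ((1 - t) • y)).comp_smul ht0.ne'
  have h2 : ∫ x in ball x₀ r, h (t • x + (1 - t) • y) ≤ ∫ x, h (t • x + (1 - t) • y) :=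
    setIntegral_le_integral hint (Eventually.of_forall fun x => hh0 _)
  have h3 : ∫ x, h (t • x + (1 - t) • y) =
      |(t ^ (Module.finrank ℝ (Cn n)))⁻¹| * ∫ x, h x := by
    rw [Measure.integral_comp_smul volume (fun x => h (x + (1 - t) • y)) t, smul_eq_mul,
      integral_add_right_eq_self h ((1 - t) • y)]
  have h4 : ∫ x, h x = ∫ x in ball x₀ r, g x := integral_indicator measurableSet_ball
  have h5 : |(t ^ (Module.finrank ℝ (Cn n)))⁻¹| ≤ 2 ^ (Module.finrank ℝ (Cn n)) := by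
    rw [abs_of_nonneg (by positivity), ← inv_pow]
    gcongr
    rw [inv_le_comm₀ ht0 (by norm_num)]
    linarith [ht.1]
  have h6 : 0 ≤ ∫ x in ball x₀ r, g x := integral_nonneg hg0
  rw [h1]
  refine h2.trans ?_
  rw [h3, h4]
  exact mul_le_mul_of_nonneg_right h5 h6

theorem lemA {n : ℕ} {x₀ : Cn n} {r : ℝ} (hr : 0 < r) {f : Cn n → ℝ} {U : Set (Cn n)}
    (hU : IsOpen U) (hB : closedBall x₀ r ⊆ U) (hf : ContDiffOn ℝ ∞ f U) {y : Cn n}
    (hy : y ∈ ball x₀ r) :
    ∫ x in ball x₀ r, (f x - f ((1 / 2 : ℝ) • x + (1 / 2 : ℝ) • y)) ^ 2 ≤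
      r ^ 2 * 2 ^ (Module.finrank ℝ (Cn n)) * ∫ x in ball x₀ r, ‖fderiv ℝ f x‖ ^ 2 := by
  have hy' := ball_subset_closedBall hy
  have hcf : ContinuousOn (fderiv ℝ f) U := hf.continuousOn_fderiv_of_isOpen hU (by simp)
  have hcB : IsCompact (closedBall x₀ r) := isCompact_closedBall x₀ r
  have hDint : IntegrableOn (fun x => ‖fderiv ℝ f x‖ ^ 2) (ball x₀ r) :=
    (((hcf.mono hB).norm.pow 2).integrableOn_compact hcB).mono_set ball_subset_closedBall
  have hc2 : ContinuousOn (fun p : Cn n × ℝ => ‖fderiv ℝ f (p.2 • p.1 + (1 - p.2) • y)‖ ^ 2)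
      (closedBall x₀ r ×ˢ Icc (1 / 2 : ℝ) 1) := by
    refine (ContinuousOn.norm (hcf.comp ?_ ?_)).pow 2
    · have : Continuous (fun p : Cn n × ℝ => p.2 • p.1 + (1 - p.2) • y) := by fun_prop
      exact this.continuousOn
    · rintro ⟨x, t⟩ ⟨hx, ht⟩
      exact hB (gam_mem hx hy' ht)
  have hint2 : Integrable (Function.uncurry fun (x : Cn n) (t : ℝ) =>
      ‖fderiv ℝ f (t • x + (1 - t) • y)‖ ^ 2)
      ((volume.restrict (ball x₀ r)).prod (volume.restrict (Icc (1 / 2 : ℝ) 1))) := by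
    rw [Measure.prod_restrict]
    exact (hc2.integrableOn_compact (hcB.prod isCompact_Icc)).mono_set
      (prod_mono ball_subset_closedBall subset_rfl)
  have hf0 : ContinuousOn f (closedBall x₀ r) := hf.continuousOn.mono hB
  have hcm : ContinuousOn (fun x => (f x - f ((1 / 2 : ℝ) • x + (1 / 2 : ℝ) • y)) ^ 2)
      (closedBall x₀ r) := by
    refine (hf0.sub (hf0.comp (f := fun x : Cn n => (1 / 2 : ℝ) • x + (1 / 2 : ℝ) • y) ?_ ?_)).pow 2
    · have : Continuous (fun x : Cn n => (1 / 2 : ℝ) • x + (1 / 2 : ℝ) • y) := by fun_prop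
      exact this.continuousOn
    · intro x hx
      have := gam_mem hx hy' (t := 1 / 2) ⟨le_rfl, by norm_num⟩
      have e : (1 - 1 / 2 : ℝ) = 1 / 2 := by norm_num
      rwa [e] at this
  have hi1 : IntegrableOn (fun x => (f x - f ((1 / 2 : ℝ) • x + (1 / 2 : ℝ) • y)) ^ 2)
      (ball x₀ r) := (hcm.integrableOn_compact hcB).mono_set ball_subset_closedBall
  have hi2 : IntegrableOn (fun x => 2 * r ^ 2 *
      ∫ t in Icc (1 / 2 : ℝ) 1, ‖fderiv ℝ f (t • x + (1 - t) • y)‖ ^ 2) (ball x₀ r) :=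
    hint2.integral_prod_left.const_mul _
  calc ∫ x in ball x₀ r, (f x - f ((1 / 2 : ℝ) • x + (1 / 2 : ℝ) • y)) ^ 2
      ≤ ∫ x in ball x₀ r, 2 * r ^ 2 *
          ∫ t in Icc (1 / 2 : ℝ) 1, ‖fderiv ℝ f (t • x + (1 - t) • y)‖ ^ 2 :=
        setIntegral_mono_on hi1 hi2 measurableSet_ball fun x hx =>
          ptw hr hU hB hf (ball_subset_closedBall hx) hy'
    _ = 2 * r ^ 2 * ∫ x in ball x₀ r,
          ∫ t in Icc (1 / 2 : ℝ) 1, ‖fderiv ℝ f (t • x + (1 - t) • y)‖ ^ 2 := by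
        rw [integral_const_mul]
    _ = 2 * r ^ 2 * ∫ t in Icc (1 / 2 : ℝ) 1,
          ∫ x in ball x₀ r, ‖fderiv ℝ f (t • x + (1 - t) • y)‖ ^ 2 := by
        rw [integral_integral_swap hint2]
    _ ≤ 2 * r ^ 2 * ∫ _t in Icc (1 / 2 : ℝ) 1,
          2 ^ (Module.finrank ℝ (Cn n)) * ∫ x in ball x₀ r, ‖fderiv ℝ f x‖ ^ 2 := by
        apply mul_le_mul_of_nonneg_left _ (by positivity)
        apply setIntegral_mono_on hint2.integral_prod_right
          (integrableOn_const (by rw [Real.volume_Icc]; exact ENNReal.ofReal_ne_top))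
          measurableSet_Icc
        intro t ht
        exact scal hDint (fun x => by positivity) hy ht
    _ = _ := by
        rw [setIntegral_const]
        simp only [smul_eq_mul, Measure.real, Real.volume_Icc]
        rw [ENNReal.toReal_ofReal (by norm_num)]
        ring

theorem poil : S_POIL := by
  intro n x₀ r hr
  refine ⟨4 * volume.real (ball x₀ r) * (r ^ 2 * 2 ^ (Module.finrank ℝ (Cn n))), ?_⟩
  intro f U hU hB hf
  have hcB : IsCompact (closedBall x₀ r) := isCompact_closedBall x₀ r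
  have hf0 : ContinuousOn f (closedBall x₀ r) := hf.continuousOn.mono hB
  set D : ℝ := ∫ x in ball x₀ r, ‖fderiv ℝ f x‖ ^ 2 with hD
  set c : ℝ := r ^ 2 * 2 ^ (Module.finrank ℝ (Cn n)) with hc
  set m : Cn n → Cn n → Cn n := fun x y => (1 / 2 : ℝ) • x + (1 / 2 : ℝ) • y with hm
  have hmem : ∀ x ∈ closedBall x₀ r, ∀ y ∈ closedBall x₀ r, m x y ∈ closedBall x₀ r := by
    intro x hx y hy
    exact convex_closedBall x₀ r hx hy (by norm_num) (by norm_num) (by norm_num)
  have hmc : Continuous (fun p : Cn n × Cn n => m p.1 p.2) := by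
    simp only [hm]; fun_prop
  have hcc : IsCompact (closedBall x₀ r ×ˢ closedBall x₀ r) := hcB.prod hcB
  have hcp : ContinuousOn (fun p : Cn n × Cn n => f (m p.1 p.2))
      (closedBall x₀ r ×ˢ closedBall x₀ r) :=
    hf0.comp hmc.continuousOn fun p hp => hmem _ hp.1 _ hp.2
  have hc1 : ContinuousOn (fun p : Cn n × Cn n => f p.1) (closedBall x₀ r ×ˢ closedBall x₀ r) :=
    hf0.comp continuous_fst.continuousOn fun p hp => hp.1
  have hc2 : ContinuousOn (fun p : Cn n × Cn n => f p.2) (closedBall x₀ r ×ˢ closedBall x₀ r) :=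
    hf0.comp continuous_snd.continuousOn fun p hp => hp.2
  have toI : ∀ F : Cn n → Cn n → ℝ, ContinuousOn (Function.uncurry F)
      (closedBall x₀ r ×ˢ closedBall x₀ r) → Integrable (Function.uncurry F)
      ((volume.restrict (ball x₀ r)).prod (volume.restrict (ball x₀ r))) := by
    intro F hF
    rw [Measure.prod_restrict]
    exact (hF.integrableOn_compact hcc).mono_set
      (prod_mono ball_subset_closedBall ball_subset_closedBall)
  have k0 : ContinuousOn (Function.uncurry fun x y => (f x - f y) ^ 2)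
      (closedBall x₀ r ×ˢ closedBall x₀ r) :=
    ((hc1.sub hc2).pow 2).congr fun p _ => rfl
  have k1 : ContinuousOn (Function.uncurry fun x y => (f x - f (m x y)) ^ 2)
      (closedBall x₀ r ×ˢ closedBall x₀ r) :=
    ((hc1.sub hcp).pow 2).congr fun p _ => rfl
  have k2 : ContinuousOn (Function.uncurry fun x y => (f y - f (m x y)) ^ 2)
      (closedBall x₀ r ×ˢ closedBall x₀ r) :=
    ((hc2.sub hcp).pow 2).congr fun p _ => rfl
  have I0 := toI _ k0
  have I1 := toI _ k1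
  have I2 := toI _ k2
  have L1 : Integrable (fun x => ∫ y in ball x₀ r, (f x - f (m x y)) ^ 2)
      (volume.restrict (ball x₀ r)) := I1.integral_prod_left
  have L2 : Integrable (fun x => ∫ y in ball x₀ r, (f y - f (m x y)) ^ 2)
      (volume.restrict (ball x₀ r)) := I2.integral_prod_left
  have hvol : ∀ k : ℝ, ∫ _x in ball x₀ r, k = volume.real (ball x₀ r) * k := by
    intro k; rw [setIntegral_const, smul_eq_mul]
  have hfin : volume (ball x₀ r) ≠ ⊤ := measure_ball_lt_top.ne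
  have hconst : ∀ k : ℝ, IntegrableOn (fun _ : Cn n => k) (ball x₀ r) := fun k =>
    integrableOn_const hfin
  have T1 : ∫ x in ball x₀ r, ∫ y in ball x₀ r, (f x - f (m x y)) ^ 2 ≤
      volume.real (ball x₀ r) * (c * D) := by
    rw [integral_integral_swap I1, ← hvol]
    exact setIntegral_mono_on I1.integral_prod_right (hconst _) measurableSet_ball
      fun y hy => lemA hr hU hB hf hy
  have T2 : ∫ x in ball x₀ r, ∫ y in ball x₀ r, (f y - f (m x y)) ^ 2 ≤
      volume.real (ball x₀ r) * (c * D) := by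
    rw [← hvol]
    refine setIntegral_mono_on I2.integral_prod_left (hconst _) measurableSet_ball
      fun x hx => ?_
    have := lemA hr hU hB hf hx
    simp only [hm]
    simp_rw [add_comm ((1 / 2 : ℝ) • x)]
    exact this
  have hB0 : ∀ x ∈ ball x₀ r, ∫ y in ball x₀ r, (f x - f y) ^ 2 ≤
      2 * (∫ y in ball x₀ r, (f x - f (m x y)) ^ 2) +
      2 * ∫ y in ball x₀ r, (f y - f (m x y)) ^ 2 := by
    intro x hx
    have hx' := ball_subset_closedBall hx
    have sl : ∀ F : Cn n → Cn n → ℝ, ContinuousOn (Function.uncurry F)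
        (closedBall x₀ r ×ˢ closedBall x₀ r) → IntegrableOn (F x) (ball x₀ r) := by
      intro F hF
      have : ContinuousOn (F x) (closedBall x₀ r) :=
        hF.comp (f := fun y => (x, y)) (Continuous.continuousOn (by fun_prop))
          fun y hy => ⟨hx', hy⟩
      exact (this.integrableOn_compact hcB).mono_set ball_subset_closedBall
    have J0 : IntegrableOn (fun y => (f x - f y) ^ 2) (ball x₀ r) := sl _ k0
    have J1 : IntegrableOn (fun y => (f x - f (m x y)) ^ 2) (ball x₀ r) := sl _ k1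
    have J2 : IntegrableOn (fun y => (f y - f (m x y)) ^ 2) (ball x₀ r) := sl _ k2
    rw [← integral_const_mul, ← integral_const_mul,
      ← integral_add (J1.const_mul 2) (J2.const_mul 2)]
    refine setIntegral_mono_on J0 ((J1.const_mul 2).add (J2.const_mul 2)) measurableSet_ball
      fun y _ => ?_
    nlinarith [sq_nonneg ((f x - f (m x y)) + (f y - f (m x y)))]
  calc ∫ x in ball x₀ r, ∫ y in ball x₀ r, (f x - f y) ^ 2
      ≤ ∫ x in ball x₀ r, (2 * (∫ y in ball x₀ r, (f x - f (m x y)) ^ 2) +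
          2 * ∫ y in ball x₀ r, (f y - f (m x y)) ^ 2) :=
        setIntegral_mono_on I0.integral_prod_left
          ((L1.const_mul 2).add (L2.const_mul 2)) measurableSet_ball hB0
    _ = 2 * (∫ x in ball x₀ r, ∫ y in ball x₀ r, (f x - f (m x y)) ^ 2) +
          2 * ∫ x in ball x₀ r, ∫ y in ball x₀ r, (f y - f (m x y)) ^ 2 := by
        rw [integral_add (L1.const_mul 2) (L2.const_mul 2), integral_const_mul,
          integral_const_mul]
    _ ≤ 2 * (volume.real (ball x₀ r) * (c * D)) + 2 * (volume.real (ball x₀ r) * (c * D)) := by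
        linarith
    _ = _ := by ring

end Pool.Agent.Helper74.SP
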