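import Pool.Agent.Helper10.SP.GoalsK
import Pool.Agent.Helper35.SP.PAX
import Pool.Agent.Helper35.SP.RK1
import Pool.Agent.Helper86.SP.ACB

/-! # Packet SP-SECW: sections and weights from the base -/

open Complex Metric Set Filter Topology MeasureTheory
open scoped ContDiff ComplexConjugate ComplexOrder Manifold

namespace Pool.Agent.Helper74.SP

open Pool.Agent.Helper95.Lin Pool.Agent.Helper16.Abund Pool.Agent.Helper92.Orb
open Pool.Agent.Helper10.SP
open Pool.Agent.Helper35.SP (TM TM_det TM_deriv isOpen_tubeS base_pt lc_pt pt_eta baseL baseL_apply)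

universe u v

theorem bd_open {b N : ℕ} (c : Fin N → Cn b) (r : ℝ) : IsOpen (Bd c r) :=
  isOpen_iUnion fun _ => isOpen_ball

/-- A local arrow is given by a germ of the pseudogroup over the base. -/
theorem arr_germ (hARRB : S_ARRB.{u}) {b N : ℕ} {G : Type u} [Group G] {c : Fin N → Cn b} {R : ℝ}
    {Rel : G → Cn (b + 1) → Cn (b + 1) → Prop} {P : Set (Cn b) → Tri b → Prop} {Φ : Cn b → ℝ}
    {C : ℝ} {H : Cn (b + 1) → Matrix (Fin (b + 1)) (Fin (b + 1)) ℂ}
    (hF : FEt c R Rel P Φ C H) {U : Set (Cn (b + 1))} {τ : Cn (b + 1) → Cn (b + 1)}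
    (hτ : Arr Rel U τ) {x : Cn (b + 1)} (hx : x ∈ U) :
    ∃ (V : Set (Cn b)) (t : Tri b), PB c P V t ∧ base x ∈ V ∧ base (τ x) = t.g (base x) ∧
      τ x = TM t x ∧ τ =ᶠ[𝓝 x] TM t ∧ (fderiv ℂ τ x).det = Jt t (base x) := by
  obtain ⟨hU, hd, γ, hγ⟩ := hτ
  obtain ⟨V, t, h1, h2, h3, h4, h5, h6⟩ := hF.toP γ x (τ x) (hγ x hx)
  obtain ⟨hV, hVR, hg, ha, hβ, -⟩ := hF.fol.holo V t h1
  have hH : t.HolOn V := ⟨hg, ha, hβ⟩
  obtain ⟨-, a2, a3, -, -⟩ := hARRB (tubeS (Bd c 2)) Rel hF.ket.et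
  have hL : LAr Rel γ U τ := ⟨hU, hd, hγ⟩
  have hL' : LAr Rel γ (tubeS V) (TM t) := by
    refine ⟨isOpen_tubeS hV, fun y hy => ?_, fun y hy => ?_⟩
    · exact (TM_deriv hV hH hy).differentiableAt.differentiableWithinAt
    · have := h6 (base y) hy (lc y)
      rw [pt_eta] at this
      exact this
  have he : τ x = TM t x := h5
  refine ⟨V, t, ⟨h1, h3, h4⟩, h2, ?_, he, a3 γ U (tubeS V) τ (TM t) hL hL' x hx h2 he, ?_⟩
  · rw [he, TM, base_pt]
  · rw [← (a2 γ U τ hL x hx).2, he, (a2 γ (tubeS V) (TM t) hL' x h2).2, TM_det hV hH h2]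
    rfl

theorem base_eq_baseL {b : ℕ} : (fun x : Cn (b + 1) => base x) = baseL b :=
  funext fun x => (baseL_apply x).symm

theorem base_contDiff {b : ℕ} : ContDiff ℝ ∞ (fun x : Cn (b + 1) => base x) := by
  rw [base_eq_baseL]
  exact ((baseL b).restrictScalars ℝ).contDiff

theorem base_diff {b : ℕ} : Differentiable ℂ (fun x : Cn (b + 1) => base x) := by
  rw [base_eq_baseL]
  exact (baseL b).differentiable

theorem hess_cm {n : ℕ} (r : ℝ) {W : Set (Cn n)} (hW : IsOpen W) {f : Cn n → ℝ}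
    (hf : ContDiffOn ℝ ∞ f W) {x : Cn n} (hx : x ∈ W) (u v : Cn n) :
    hess (fun y => r * f y) x u v = r * hess f x u v := by
  unfold hess
  have h1 : (fun y => fderiv ℝ (fun y => r * f y) y v) =ᶠ[𝓝 x]
      fun y => r * fderiv ℝ f y v := by
    filter_upwards [hW.mem_nhds hx] with y hy
    rw [fderiv_const_mul (Pool.Agent.Helper86.SP.diff_at hW hf hy)]
    rfl
  rw [h1.fderiv_eq, fderiv_const_mul (Pool.Agent.Helper86.SP.diff2_at hW hf hx v)]
  rfl

theorem lev_cm {n : ℕ} (r : ℝ) {W : Set (Cn n)} (hW : IsOpen W) {f : Cn n → ℝ}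
    (hf : ContDiffOn ℝ ∞ f W) {x : Cn n} (hx : x ∈ W) (e : Cn n) :
    lev (fun y => r * f y) x e = r * lev f x e := by
  unfold lev
  rw [hess_cm r hW hf hx, hess_cm r hW hf hx]
  ring

/-- Levi form of a function of the base variables. -/
theorem lev_base (hWCH : S_WCH) {b : ℕ} {W : Set (Cn b)} (hW : IsOpen W) {f : Cn b → ℝ}
    (hf : ContDiffOn ℝ ∞ f W) {x : Cn (b + 1)} (hx : x ∈ tubeS W) (v : Cn (b + 1)) :
    lev (fun y : Cn (b + 1) => f (base y)) x v = lev f (base x) (base v) := by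
  have h := ((hWCH.1 W (tubeS W) hW (isOpen_tubeS hW) (fun y : Cn (b + 1) => base y)
    base_diff.differentiableOn (fun y hy => hy)).2 f hf x hx).1 v
  have h2 : fderiv ℂ (fun y : Cn (b + 1) => base y) x v = base v := by
    rw [base_eq_baseL, ContinuousLinearMap.fderiv, baseL_apply]
  rw [h2] at h
  exact h

/-- SECW. -/
theorem secw (hARRB : S_ARRB.{u}) (hWCH : S_WCH) : S_SECW.{u} := by
  intro b N G _ c R Rel P Φ C H hF
  have hD : IsOpen (Bd c 2) := bd_open c 2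
  have hT : IsOpen (tubeS (Bd c 2)) := isOpen_tubeS hD
  have hbm : MapsTo (fun x : Cn (b + 1) => base x) (tubeS (Bd c 2)) (Bd c 2) := fun x hx => hx
  have h2R : (2 : ℝ) ≤ R := by
    have h1 := hF.fol.Rge
    have h2 := hF.fol.Cge
    linarith
  have hsub : Bd c 2 ⊆ Bd c R := by
    intro z hz
    obtain ⟨i, hi⟩ := mem_iUnion.1 hz
    exact mem_iUnion.2 ⟨i, ball_subset_ball h2R hi⟩
  have hΦ : ContDiffOn ℝ ∞ Φ (Bd c 2) := hF.fol.smooth.mono hsub
  refine ⟨fun M f hf haut => ⟨?_, ?_⟩, fun M η hη hinv => ⟨⟨?_, ?_, ?_⟩, ?_⟩⟩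
  · exact hf.comp base_contDiff.contDiffOn hbm
  · intro U τ hτ x hx
    obtain ⟨V, t, h1, h2, h3, -, -, h6⟩ := arr_germ hARRB hF hτ hx
    change f (base x) = f (base (τ x)) * _
    rw [h6, h3]
    exact haut V t h1 (base x) h2
  · intro x _
    exact Real.exp_pos _
  · have h1 : ContDiffOn ℝ ∞ (fun z => Real.exp (-(M * Φ z) - η z)) (Bd c 2) :=
      ((contDiffOn_const.mul hΦ).neg.sub hη).exp
    exact h1.comp base_contDiff.contDiffOn hbm
  · intro U τ hτ x hx
    obtain ⟨V, t, h1, h2, h3, -, -, h6⟩ := arr_germ hARRB hF hτ hx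
    have hpot := hF.fol.pot V t h1.1 (base x) h2
    have ha : t.a (base x) ≠ 0 := ((hF.fol.holo V t h1.1).2.2.2.2.2 (base x) h2).2
    have hη' := hinv V t h1 (base x) h2
    change Real.exp (-(M * Φ (base (τ x))) - η (base (τ x))) * _ =
      Real.exp (-(M * Φ (base x)) - η (base x)) * _
    rw [h6, h3, hη']
    have hJ : Jt t (base x) ≠ 0 := mul_ne_zero hpot.1 ha
    have hpos : 0 < ‖Jt t (base x)‖ ^ 2 := by positivity
    have hlog : Real.log (‖Jt t (base x)‖ ^ 2) = Real.log (‖(fderiv ℂ t.g (base x)).det‖ ^ 2) +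
        Real.log (‖t.a (base x)‖ ^ 2) := by
      rw [← Real.log_mul (by have := norm_pos_iff.2 hpot.1; positivity)
        (by have := norm_pos_iff.2 ha; positivity)]
      congr 1
      rw [Jt, norm_mul, mul_pow]
    have hΦe : Φ (t.g (base x)) = Φ (base x) - Real.log (‖Jt t (base x)‖ ^ 2) := by
      rw [hlog, hpot.2]
      ring
    have he : -(M * Φ (t.g (base x))) - η (base x) = (-(M * Φ (base x)) - η (base x)) +
        M * Real.log (‖Jt t (base x)‖ ^ 2) := by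
      rw [hΦe]
      ring
    rw [he, Real.exp_add, Real.exp_nat_mul, Real.exp_log hpos]
    ring
  · intro x hx v
    have h0 : (fun y : Cn (b + 1) => Real.log (Real.exp (-(M * Φ (base y)) - η (base y)))) =
        fun y => (fun z => (-(M : ℝ)) * Φ z + (-1) * η z) (base y) := by
      funext y
      rw [Real.log_exp]
      ring
    have s1 : ContDiffOn ℝ ∞ (fun z => (-(M : ℝ)) * Φ z) (Bd c 2) := contDiffOn_const.mul hΦ
    have s2 : ContDiffOn ℝ ∞ (fun z => (-1 : ℝ) * η z) (Bd c 2) := contDiffOn_const.mul hη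
    rw [h0, lev_base hWCH hD (s1.add s2) hx v,
      Pool.Agent.Helper86.SP.lev_add hD s1 s2 hx, lev_cm _ hD hΦ hx, lev_cm _ hD hη hx]
    ring

end Pool.Agent.Helper74.SP
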